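import Pool.Agent.Lib.MP_fbd18f_co.Defs

set_option autoImplicit false

namespace Pool.Agent.FBD

theorem sy_lt (n : ℕ) : sy n < 64 := by
  unfold sy
  have h1 : (n + 1) % 8 < 8 := Nat.mod_lt _ (by norm_num)
  have h2 : ((n + 1) / 2 ^ (padicValNat 2 (n + 1))) % 8 < 8 := Nat.mod_lt _ (by norm_num)
  omega

theorem sy_mod {n n' : ℕ} (h : sy n = sy n') : n % 8 = n' % 8 := by
  unfold sy at h
  have h1 : (n + 1) % 8 < 8 := Nat.mod_lt _ (by norm_num)
  have h2 : (n' + 1) % 8 < 8 := Nat.mod_lt _ (by norm_num)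
  omega

theorem sy_odd {n n' : ℕ} (h : sy n = sy n') :
    ((n + 1) / 2 ^ (padicValNat 2 (n + 1))) % 8 =
      ((n' + 1) / 2 ^ (padicValNat 2 (n' + 1))) % 8 := by
  unfold sy at h
  have h1 : (n + 1) % 8 < 8 := Nat.mod_lt _ (by norm_num)
  have h2 : (n' + 1) % 8 < 8 := Nat.mod_lt _ (by norm_num)
  omega

theorem padic_pow_mul_odd (c u : ℕ) (hu : u % 2 = 1) : padicValNat 2 (2 ^ c * u) = c := by
  have hu0 : u ≠ 0 := by rintro rfl; omega
  rw [padicValNat.mul (by positivity) hu0, padicValNat.prime_pow]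
  have : padicValNat 2 u = 0 := by
    apply padicValNat.eq_zero_of_not_dvd
    omega
  omega

theorem oddpart_pow_mul (c u : ℕ) (hu : u % 2 = 1) :
    (2 ^ c * u) / 2 ^ (padicValNat 2 (2 ^ c * u)) = u := by
  rw [padic_pow_mul_odd c u hu]
  exact Nat.mul_div_cancel_left u (by positivity)

theorem sy_far (a D : ℕ) (hD : 0 < D) (h8 : 8 ∣ D) :
    ∃ n, a ≤ n ∧ n + 2 ≤ a + D ∧ sy n ≠ sy (n + D) := by
  -- write D = 2 ^ (c + 2) * o with o odd, c ≥ 1
  obtain ⟨k, o, ho, hDo⟩ := Nat.exists_eq_two_pow_mul_odd (n := D) (by omega)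
  have ho1 : o % 2 = 1 := Nat.odd_iff.mp ho
  have hk : 3 ≤ k := by
    by_contra hk
    have h1 : k = 0 ∨ k = 1 ∨ k = 2 := by omega
    rcases h1 with rfl | rfl | rfl <;> omega
  obtain ⟨c, rfl⟩ : ∃ c, k = c + 2 := ⟨k - 2, by omega⟩
  have hc : 1 ≤ c := by omega
  -- choose m ≡ 2 ^ c mod 2 ^ (c+1), a + 1 ≤ m < a + 1 + 2 ^ (c + 1)
  set P := 2 ^ c with hP
  have hP2 : 2 ≤ P := by
    calc 2 = 2 ^ 1 := by norm_num
      _ ≤ 2 ^ c := Nat.pow_le_pow_right (by norm_num) hc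
  have hD' : D = 4 * P * o := by rw [hDo, pow_add, ← hP]; ring
  -- q with (2 q + 1) P ≥ a + 1 minimal
  let q := (a + P) / (2 * P)
  have hq1 : (2 * P) * q ≤ a + P := Nat.mul_div_le _ _
  have hq2 : a + P < (2 * P) * (q + 1) := Nat.lt_mul_div_succ _ (by positivity)
  let u := 2 * q + 1
  have hu : u % 2 = 1 := by simp only [u]; omega
  have hPu : P * u = 2 * P * q + P := by simp only [u]; ring
  have hexp : 2 * P * (q + 1) = 2 * P * q + 2 * P := by ring
  have hm1 : a + 1 ≤ P * u := by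
    rw [hPu]; omega
  have hm2 : P * u ≤ a + 2 * P := by
    rw [hPu]; omega
  have hDge : 4 * P ≤ D := by
    rw [hD']
    exact Nat.le_mul_of_pos_right _ (by omega)
  refine ⟨P * u - 1, by omega, by omega, ?_⟩
  intro hsy
  have h := sy_odd hsy
  have e1 : P * u - 1 + 1 = P * u := by omega
  have e2 : P * u - 1 + D + 1 = P * (u + 4 * o) := by
    have : P * (u + 4 * o) = P * u + D := by rw [hD']; ring
    omega
  rw [e1, e2, hP, oddpart_pow_mul c u hu, oddpart_pow_mul c (u + 4 * o) (by omega)] at h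
  omega

end Pool.Agent.FBD
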