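import Pool.Agent.Lib.MP_fbd18f_co.Defs
import Pool.Agent.Lib.MP_fbd18f_co.ARITH

set_option autoImplicit false

namespace Pool.Agent.FBD

namespace Sys

variable {V : Type} (S : Sys V)

theorem cont_fst {e g x : ℕ} (he : e + 1 < S.r) (hx : x ∈ S.T e g) :
    S.cont (e + 1) (g / S.b) x = sy (S.idx (e + 1) (g / S.b) x) + 64 * (g % S.b) := by
  have h : ∃ g', g' / S.b = g / S.b ∧ x ∈ S.T e g' := ⟨g, rfl, hx⟩
  have hs := Classical.choose_spec h
  have hg : g = Classical.choose h :=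
    S.un2 e g (Classical.choose h) he hs.1.symm x hx hs.2
  rw [cont, dif_pos h, ← hg]

theorem cont_snd {e g x : ℕ} (he : e + 1 < S.r) (hx : x ∈ S.T e g) :
    S.cont (e + 1) (g / S.b) (S.nx e g x) =
      sy (S.idx (e + 1) (g / S.b) (S.nx e g x)) + 64 * (S.b + S.cont e g x) := by
  have h1 : ¬ ∃ g', g' / S.b = g / S.b ∧ S.nx e g x ∈ S.T e g' := by
    rintro ⟨g', hg', hx'⟩
    exact S.un1 e g g' he hg'.symm x hx _ hx' rfl
  have h : ∃ q : ℕ × ℕ, q.1 / S.b = g / S.b ∧ q.2 ∈ S.T e q.1 ∧ S.nx e g x = S.nx e q.1 q.2 :=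
    ⟨(g, x), rfl, hx, rfl⟩
  have hs := Classical.choose_spec h
  have hxx : x = (Classical.choose h).2 :=
    S.un3 e g _ he hs.1.symm x hx _ hs.2.1 hs.2.2
  have hgg : g = (Classical.choose h).1 := by
    refine S.un2 e g _ he hs.1.symm x hx ?_
    have h2 := hs.2.1
    rwa [← hxx] at h2
  rw [cont, dif_neg h1, dif_pos h, ← hgg, ← hxx]

theorem cont_mod (e g x : ℕ) : S.cont e g x % 64 = sy (S.idx e g x) := by
  cases e with
  | zero =>
    rw [cont]
    exact Nat.mod_eq_of_lt (sy_lt _)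
  | succ e =>
    rw [cont, Nat.add_mul_mod_self_left]
    exact Nat.mod_eq_of_lt (sy_lt _)

theorem cont_sy {e g g' x x' : ℕ} (h : S.cont e g x = S.cont e g' x') :
    sy (S.idx e g x) = sy (S.idx e g' x') := by
  rw [← cont_mod, ← cont_mod, h]

theorem cont_lt (e g x : ℕ) : S.cont e g x < KK S.b e := by
  induction e generalizing g x with
  | zero =>
    rw [cont, KK]
    exact sy_lt _
  | succ e ih =>
    rw [cont, KK]
    have h1 := sy_lt (S.idx (e + 1) g x)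
    have hb := S.hb
    split_ifs with h2 h3
    · have := Nat.mod_lt (Classical.choose h2) (show S.b > 0 by omega)
      omega
    · have := ih (Classical.choose h3).1 (Classical.choose h3).2
      omega
    · have := ih 0 0
      omega

theorem mt_self (v : V) : Mt (S.lo v) (S.hi v) (S.lo v) (S.hi v) :=
  ⟨S.hle v, S.hle v⟩

theorem dir_eq {v : V} {e g x : ℕ} (hO : S.Ob (S.lam v) e g) (hx : x ∈ S.T e g)
    (ht : S.tch v e g x) : S.dir v = some (e, g % S.b, S.cont e g x) := by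
  have h : ∃ q : ℕ × ℕ × ℕ, S.Ob (S.lam v) q.1 q.2.1 ∧ q.2.2 ∈ S.T q.1 q.2.1 ∧
      S.tch v q.1 q.2.1 q.2.2 := ⟨(e, g, x), hO, hx, ht⟩
  have hs := Classical.choose_spec h
  have hu := S.sepO (S.lam v) e g x _ _ _ hO hs.1 hx hs.2.1 v v le_rfl le_rfl (S.mt_self v)
    ht hs.2.2
  rw [dir, dif_pos h, ← hu.1, ← hu.2.1, ← hu.2.2]

theorem dir_some {v : V} {e d c : ℕ} (h : S.dir v = some (e, d, c)) :
    ∃ g x, S.Ob (S.lam v) e g ∧ x ∈ S.T e g ∧ S.tch v e g x ∧ d = g % S.b ∧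
      c = S.cont e g x := by
  by_cases h1 : ∃ q : ℕ × ℕ × ℕ, S.Ob (S.lam v) q.1 q.2.1 ∧ q.2.2 ∈ S.T q.1 q.2.1 ∧
      S.tch v q.1 q.2.1 q.2.2
  · obtain ⟨⟨e', g, x⟩, hO, hx, ht⟩ := h1
    have := S.dir_eq hO hx ht
    rw [this] at h
    simp only [Option.some.injEq, Prod.mk.injEq] at h
    obtain ⟨rfl, rfl, rfl⟩ := h
    exact ⟨g, x, hO, hx, ht, rfl, rfl⟩
  · rw [dir, dif_neg h1] at h
    exact absurd h (by simp)

/-- direct reveal -/
theorem reveal {v v' : V} (hc : S.col v = S.col v') {e g x : ℕ} (hO : S.Ob (S.lam v) e g)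
    (hx : x ∈ S.T e g) (ht : S.tch v e g x) :
    ∃ x' ∈ S.T e g, S.tch v' e g x' ∧ S.cont e g x = S.cont e g x' := by
  have h1 := S.dir_eq hO hx ht
  have hl : S.lam v = S.lam v' := congrArg Prod.fst hc
  have hd : S.dir v = S.dir v' := congrArg (fun q => q.2.2) hc
  rw [hd] at h1
  obtain ⟨g', x', hO', hx', ht', hg, hcc⟩ := S.dir_some h1
  have hgg : g = g' := by
    have e1 : g / S.b = g' / S.b := by
      rw [hO.2.2, hO'.2.2, hl]
    rw [← Nat.div_add_mod g S.b, ← Nat.div_add_mod g' S.b, e1, hg]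
  subst hgg
  exact ⟨x', hx', ht', hcc⟩

theorem dir_range {v : V} {e d c : ℕ} (h : S.dir v = some (e, d, c)) :
    e < S.r ∧ d < S.b ∧ c < KK S.b e := by
  obtain ⟨g, x, hO, hx, ht, rfl, rfl⟩ := S.dir_some h
  exact ⟨hO.1, Nat.mod_lt _ (by have := S.hb; omega), S.cont_lt e g x⟩

end Sys

end Pool.Agent.FBD
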