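import Pool.Agent.Lib.MP_fbd18f_co.Defs

set_option autoImplicit false

namespace Pool.Agent.FBD

/-- a finite set of naturals has an element with exactly `n` smaller elements if `n < card` -/
theorem kappa_exists_rank (T : Finset ℕ) (n : ℕ) (h : n < T.card) :
    ∃ x ∈ T, (T.filter (fun y => y < x)).card = n := by
  induction T using Finset.induction_on_max with
  | empty => simp at h
  | insert a s hs ih =>
    have ha : a ∉ s := fun h' => lt_irrefl _ (hs a h')
    rw [Finset.card_insert_of_notMem ha] at h
    rcases Nat.lt_or_ge n s.card with h1 | h1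
    · obtain ⟨x, hx, hxc⟩ := ih h1
      refine ⟨x, Finset.mem_insert_of_mem hx, ?_⟩
      rw [Finset.filter_insert, if_neg (by have := hs x hx; omega)]
      exact hxc
    · have hn : n = s.card := by omega
      refine ⟨a, Finset.mem_insert_self _ _, ?_⟩
      rw [Finset.filter_insert, if_neg (lt_irrefl a), hn]
      congr 1
      exact Finset.filter_true_of_mem hs

namespace Sys

variable {V : Type} (S : Sys V)

/-! ### Piece KAPPA -/

theorem idx_lt_of_lt {e g x x' : ℕ} (hx : x ∈ S.T e g) (h : x < x') :
    S.idx e g x < S.idx e g x' := by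
  classical
  unfold idx
  apply Finset.card_lt_card
  rw [Finset.ssubset_iff_of_subset]
  · refine ⟨x, ?_, ?_⟩
    · simp only [Finset.mem_filter]
      exact ⟨hx, h⟩
    · simp
  · intro y hy
    simp only [Finset.mem_filter] at hy ⊢
    exact ⟨hy.1, hy.2.trans h⟩

theorem idx_inj {e g x x' : ℕ} (hx : x ∈ S.T e g) (hx' : x' ∈ S.T e g)
    (h : S.idx e g x = S.idx e g x') : x = x' := by
  rcases lt_trichotomy x x' with h1 | h1 | h1
  · have := S.idx_lt_of_lt hx h1
    omega
  · exact h1
  · have := S.idx_lt_of_lt hx' h1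
    omega

theorem idx_next {e g x : ℕ} (he : e + 1 < S.r) (hx : x ∈ S.T e g) :
    S.idx (e + 1) (g / S.b) (S.nx e g x) = S.idx (e + 1) (g / S.b) x + 1 := by
  classical
  unfold idx
  have h1 : (S.T (e + 1) (g / S.b)).filter (fun y => y < S.nx e g x) =
      insert x ((S.T (e + 1) (g / S.b)).filter (fun y => y < x)) := by
    ext y
    simp only [Finset.mem_filter, Finset.mem_insert]
    constructor
    · rintro ⟨hy, hyn⟩
      rcases lt_trichotomy y x with h | h | h
      · exact Or.inr ⟨hy, h⟩
      · exact Or.inl h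
      · have := S.ch5 e g he x hx y hy h
        omega
    · rintro (rfl | ⟨hy, hyx⟩)
      · exact ⟨S.ch1 e g he y hx, S.ch3 e g he y hx⟩
      · exact ⟨hy, hyx.trans (S.ch3 e g he x hx)⟩
  have h2 : x ∉ (S.T (e + 1) (g / S.b)).filter (fun y => y < x) := by simp
  have h3 : ((S.T (e + 1) (g / S.b)).filter (fun y => y < S.nx e g x)).card =
      ((S.T (e + 1) (g / S.b)).filter (fun y => y < x)).card + 1 := by
    rw [h1, Finset.card_insert_of_notMem h2]
  convert h3 using 1

open Classical in
/-- the three cases -/
theorem kap_cases {e g x : ℕ} (he : e < S.r) (hx : x ∈ S.T e g) {v : V}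
    (hv : (g + 1) * S.b ^ e ≤ S.lam v) :
    (S.hi v < x → S.kap e g v < 2 * S.idx e g x + 1) ∧
    (S.tch v e g x → S.kap e g v = 2 * S.idx e g x + 1) ∧
    (S.rg e g x < S.lo v → 2 * S.idx e g x + 1 < S.kap e g v) := by
  have hself : Mt (S.lo v) (S.hi v) (S.lo v) (S.hi v) := ⟨S.hle v, S.hle v⟩
  refine ⟨fun h => ?_, fun h => ?_, fun h => ?_⟩
  · unfold kap idx
    have hsub : (S.T e g).filter (fun y => S.rg e g y < S.lo v) ⊆
        (S.T e g).filter (fun y => y < x) := by
      intro y hy
      simp only [Finset.mem_filter] at hy ⊢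
      have h1 := S.rg_le e g y he hy.1
      have h2 := S.hle v
      exact ⟨hy.1, by omega⟩
    by_cases ht : ∃ x ∈ S.T e g, S.tch v e g x
    · rw [if_pos ht]
      obtain ⟨y0, hy0, ht0⟩ := ht
      have hlt : ((S.T e g).filter (fun y => S.rg e g y < S.lo v)).card <
          ((S.T e g).filter (fun y => y < x)).card := by
        apply Finset.card_lt_card
        rw [Finset.ssubset_iff_of_subset hsub]
        refine ⟨y0, ?_, ?_⟩
        · simp only [Finset.mem_filter]
          have := ht0.2
          exact ⟨hy0, by omega⟩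
        · simp only [Finset.mem_filter, not_and, not_lt]
          intro _
          exact ht0.1
      omega
    · rw [if_neg ht]
      have := Finset.card_le_card hsub
      omega
  · unfold kap idx
    rw [if_pos ⟨x, hx, h⟩]
    have heq : (S.T e g).filter (fun y => S.rg e g y < S.lo v) =
        (S.T e g).filter (fun y => y < x) := by
      ext y
      simp only [Finset.mem_filter]
      constructor
      · rintro ⟨hy, hyl⟩
        refine ⟨hy, ?_⟩
        by_contra hcon
        push Not at hcon
        have h0 := h.1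
        rcases Nat.lt_or_ge x y with h1 | h1
        · have := S.ordT e g he x hx y hy h1
          have := S.rg_le e g y he hy
          omega
        · have : y = x := le_antisymm h1 hcon
          subst this
          omega
      · rintro ⟨hy, hyl⟩
        refine ⟨hy, ?_⟩
        by_contra hcon
        push Not at hcon
        have ht : Mt (S.lo v) (S.hi v) y (S.rg e g y) := ⟨hcon, by have := h.2; omega⟩
        have := S.sepT e g he y hy x hx v v hv hv hself ht h
        omega
    rw [heq]
  · unfold kap idx
    have hsub : insert x ((S.T e g).filter (fun y => y < x)) ⊆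
        (S.T e g).filter (fun y => S.rg e g y < S.lo v) := by
      intro y hy
      simp only [Finset.mem_filter, Finset.mem_insert] at hy ⊢
      rcases hy with rfl | ⟨hy, hyx⟩
      · exact ⟨hx, h⟩
      · refine ⟨hy, ?_⟩
        have h1 := S.ordT e g he y hy x hx hyx
        have h2 := S.rg_le e g x he hx
        omega
    have h2 : x ∉ (S.T e g).filter (fun y => y < x) := by simp
    have h3 := Finset.card_le_card hsub
    rw [Finset.card_insert_of_notMem h2] at h3
    omega

theorem kappa_trich {e g x : ℕ} (v : V) :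
    S.hi v < x ∨ S.tch v e g x ∨ S.rg e g x < S.lo v := by
  rcases Nat.lt_or_ge (S.hi v) x with h | h
  · exact Or.inl h
  · rcases Nat.lt_or_ge (S.rg e g x) (S.lo v) with h' | h'
    · exact Or.inr (Or.inr h')
    · exact Or.inr (Or.inl ⟨h', h⟩)

theorem kap_lt {e g x : ℕ} (he : e < S.r) (hx : x ∈ S.T e g) {v : V}
    (hv : (g + 1) * S.b ^ e ≤ S.lam v) :
    S.kap e g v < 2 * S.idx e g x + 1 ↔ S.hi v < x := by
  obtain ⟨h1, h2, h3⟩ := S.kap_cases he hx hv
  refine ⟨fun h => ?_, h1⟩
  rcases S.kappa_trich (e := e) (g := g) (x := x) v with c | c | c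
  · exact c
  · have := h2 c; omega
  · have := h3 c; omega

theorem kap_eq {e g x : ℕ} (he : e < S.r) (hx : x ∈ S.T e g) {v : V}
    (hv : (g + 1) * S.b ^ e ≤ S.lam v) :
    S.kap e g v = 2 * S.idx e g x + 1 ↔ S.tch v e g x := by
  obtain ⟨h1, h2, h3⟩ := S.kap_cases he hx hv
  refine ⟨fun h => ?_, h2⟩
  rcases S.kappa_trich (e := e) (g := g) (x := x) v with c | c | c
  · have := h1 c; omega
  · exact c
  · have := h3 c; omega

theorem kap_gt {e g x : ℕ} (he : e < S.r) (hx : x ∈ S.T e g) {v : V}
    (hv : (g + 1) * S.b ^ e ≤ S.lam v) :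
    2 * S.idx e g x + 1 < S.kap e g v ↔ S.rg e g x < S.lo v := by
  obtain ⟨h1, h2, h3⟩ := S.kap_cases he hx hv
  refine ⟨fun h => ?_, h3⟩
  rcases S.kappa_trich (e := e) (g := g) (x := x) v with c | c | c
  · have := h1 c; omega
  · have := h2 c; omega
  · exact c

open Classical in
theorem kap_step {e g : ℕ} (he : e < S.r) {v v' : V}
    (hv : (g + 1) * S.b ^ e ≤ S.lam v) (hv' : (g + 1) * S.b ^ e ≤ S.lam v')
    (h : S.mt v v') : S.kap e g v' ≤ S.kap e g v + 1 := by
  have hself : Mt (S.lo v) (S.hi v) (S.lo v) (S.hi v) := ⟨S.hle v, S.hle v⟩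
  -- every region to the left of `v'` is to the left of `v` or touched by `v`
  have key : ∀ x ∈ S.T e g, S.rg e g x < S.lo v' → S.rg e g x < S.lo v ∨ S.tch v e g x := by
    intro x hx hl
    rcases S.kappa_trich (e := e) (g := g) (x := x) v with c | c | c
    · exfalso
      have h1 := S.rg_le e g x he hx
      have h2 := h.2
      omega
    · exact Or.inr c
    · exact Or.inl c
  unfold kap
  by_cases ht : ∃ x ∈ S.T e g, S.tch v e g x
  · rw [if_pos ht]
    obtain ⟨x0, hx0, ht0⟩ := ht
    have hsub : (S.T e g).filter (fun y => S.rg e g y < S.lo v') ⊆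
        insert x0 ((S.T e g).filter (fun y => S.rg e g y < S.lo v)) := by
      intro y hy
      simp only [Finset.mem_filter, Finset.mem_insert] at hy ⊢
      rcases key y hy.1 hy.2 with c | c
      · exact Or.inr ⟨hy.1, c⟩
      · exact Or.inl (S.sepT e g he y hy.1 x0 hx0 v v hv hv hself c ht0)
    by_cases hx0' : S.rg e g x0 < S.lo v'
    · -- `v'` touches nothing
      have hnt : ¬ ∃ x ∈ S.T e g, S.tch v' e g x := by
        rintro ⟨x1, hx1, ht1⟩
        have := S.sepT e g he x0 hx0 x1 hx1 v v' hv hv' h ht0 ht1
        subst this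
        have := ht1.1
        omega
      rw [if_neg hnt]
      have h1 := Finset.card_le_card hsub
      have h2 := Finset.card_insert_le x0 ((S.T e g).filter (fun y => S.rg e g y < S.lo v))
      omega
    · have hsub2 : (S.T e g).filter (fun y => S.rg e g y < S.lo v') ⊆
          ((S.T e g).filter (fun y => S.rg e g y < S.lo v)) := by
        intro y hy
        have h1 := hsub hy
        rw [Finset.mem_insert] at h1
        rcases h1 with h1 | h1
        · subst h1
          simp only [Finset.mem_filter] at hy
          exact absurd hy.2 hx0'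
        · exact h1
      have h1 := Finset.card_le_card hsub2
      split_ifs <;> omega
  · rw [if_neg ht]
    have hsub2 : (S.T e g).filter (fun y => S.rg e g y < S.lo v') ⊆
        ((S.T e g).filter (fun y => S.rg e g y < S.lo v)) := by
      intro y hy
      simp only [Finset.mem_filter] at hy ⊢
      rcases key y hy.1 hy.2 with c | c
      · exact ⟨hy.1, c⟩
      · exact absurd ⟨y, hy.1, c⟩ ht
    have h1 := Finset.card_le_card hsub2
    split_ifs <;> omega

open Classical in
theorem exists_idx {e g n : ℕ} {v : V} (h : 2 * n + 1 < S.kap e g v) :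
    ∃ x ∈ S.T e g, S.idx e g x = n := by
  have h1 : n < (S.T e g).card := by
    unfold kap at h
    have h2 := Finset.card_filter_le (S.T e g) (fun y => S.rg e g y < S.lo v)
    split_ifs at h <;> omega
  obtain ⟨x, hx, hc⟩ := kappa_exists_rank (S.T e g) n h1
  refine ⟨x, hx, ?_⟩
  unfold idx
  convert hc using 1

end Sys

end Pool.Agent.FBD
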