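import Pool.Agent.Lib.MP_fbd18f_co.Defs
import Pool.Agent.Lib.MP_fbd18f_co.ARITH

set_option autoImplicit false

namespace Pool.Agent.FBD

theorem lsync (κ κ' : ℕ → ℕ) (a c : ℕ) (E : ℕ → Prop)
    (hE : ∀ s, E s → ∃ n n', κ s = 2 * n + 1 ∧ κ' s = 2 * n' + 1 ∧ sy n = sy n')
    (h1 : ∀ s s' n, a ≤ s → s < s' → s' ≤ c →
      (κ s < 2 * n + 1 ∧ 2 * n + 1 < κ s' ∨ κ s' < 2 * n + 1 ∧ 2 * n + 1 < κ s) →
      ∃ u, s < u ∧ u < s' ∧ E u)
    (h2 : ∀ s s' n, a ≤ s → s < s' → s' ≤ c →
      (κ' s < 2 * n + 1 ∧ 2 * n + 1 < κ' s' ∨ κ' s' < 2 * n + 1 ∧ 2 * n + 1 < κ' s) →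
      ∃ u, s < u ∧ u < s' ∧ E u)
    (s s' : ℕ) (hs : a ≤ s) (hss : s ≤ s') (hc : s' ≤ c) (h : E s) (h' : E s') :
    (κ s' : ℤ) - κ s = (κ' s' : ℤ) - κ' s := by
  induction hm : s' - s using Nat.strong_induction_on generalizing s s' with
  | _ m ih =>
    rcases Nat.eq_or_lt_of_le hss with hlt | hlt
    · subst hlt; simp
    · by_cases hu : ∃ u, s < u ∧ u < s' ∧ E u
      · obtain ⟨u, hu1, hu2, hu3⟩ := hu
        have e1 := ih (u - s) (by omega) s u hs (by omega) (by omega) h hu3 rfl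
        have e2 := ih (s' - u) (by omega) u s' (by omega) (by omega) hc hu3 h' rfl
        omega
      · obtain ⟨n, n', e1, e2, e3⟩ := hE s h
        obtain ⟨k, k', f1, f2, f3⟩ := hE s' h'
        have g1 := sy_mod e3
        have g2 := sy_mod f3
        have a1 : k ≤ n + 1 := by
          by_contra hcon
          exact hu (h1 s s' (n + 1) hs hlt hc (Or.inl ⟨by omega, by omega⟩))
        have a2 : n ≤ k + 1 := by
          by_contra hcon
          exact hu (h1 s s' (k + 1) hs hlt hc (Or.inr ⟨by omega, by omega⟩))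
        have a3 : k' ≤ n' + 1 := by
          by_contra hcon
          exact hu (h2 s s' (n' + 1) hs hlt hc (Or.inl ⟨by omega, by omega⟩))
        have a4 : n' ≤ k' + 1 := by
          by_contra hcon
          exact hu (h2 s s' (k' + 1) hs hlt hc (Or.inr ⟨by omega, by omega⟩))
        omega

theorem gsync (t : ℕ) (κ : ℕ → ℕ) (E : ℕ → Prop)
    (hstep : ∀ s, s + 1 < 2 * t → κ (s + 1) ≤ κ s + 1 ∧ κ s ≤ κ (s + 1) + 1)
    (hE : ∀ s, E s → s < t ∧ ∃ n n', κ s = 2 * n + 1 ∧ κ (s + t) = 2 * n' + 1 ∧ sy n = sy n')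
    (h1 : ∀ s s' n, s < s' → s' < t →
      (κ s < 2 * n + 1 ∧ 2 * n + 1 < κ s' ∨ κ s' < 2 * n + 1 ∧ 2 * n + 1 < κ s) →
      ∃ u, s < u ∧ u < s' ∧ E u ∧ κ u = 2 * n + 1)
    (h2 : ∀ s s' n, s < s' → s' < t →
      (κ (s + t) < 2 * n + 1 ∧ 2 * n + 1 < κ (s' + t) ∨
        κ (s' + t) < 2 * n + 1 ∧ 2 * n + 1 < κ (s + t)) →
      ∃ u, s < u ∧ u < s' ∧ E u ∧ κ (u + t) = 2 * n + 1)
    (s : ℕ) (hs : E s) : κ s = κ (s + t) := by
  classical
  have hls : ∀ s s', s ≤ s' → E s → E s' →
      (κ s' : ℤ) - κ s = (κ (s' + t) : ℤ) - κ (s + t) := by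
    intro s s' hss h h'
    refine lsync κ (fun u => κ (u + t)) 0 (t - 1) E (fun u hu => (hE u hu).2) ?_ ?_ s s'
      (Nat.zero_le _) hss ?_ h h'
    · intro s s' n _ hlt hc hcr
      obtain ⟨u, u1, u2, u3, _⟩ := h1 s s' n hlt (by omega) hcr
      exact ⟨u, u1, u2, u3⟩
    · intro s s' n _ hlt hc hcr
      obtain ⟨u, u1, u2, u3, _⟩ := h2 s s' n hlt (by omega) hcr
      exact ⟨u, u1, u2, u3⟩
    · have := (hE s' h').1; omega
  have hex : ∃ s, E s := ⟨s, hs⟩
  set s0 := Nat.find hex with hs0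
  have hE0 : E s0 := Nat.find_spec hex
  have hmin : ∀ u, u < s0 → ¬ E u := fun u hu => Nat.find_min hex hu
  have hle : ∀ u, E u → s0 ≤ u := fun u hu => Nat.find_min' hex hu
  obtain ⟨ht0, n, n', e1, e2, e3⟩ := hE s0 hE0
  have g1 := sy_mod e3
  have key : n = n' := by
    have st := hstep (t - 1) (by omega)
    have ht1 : t - 1 + 1 = t := by omega
    rw [ht1] at st
    rcases lt_trichotomy n n' with hlt | heq | hgt
    · exfalso
      obtain ⟨D, hD⟩ : ∃ D, n' = n + D := ⟨n' - n, by omega⟩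
      have hD8 : 8 ∣ D := by omega
      have hDpos : 0 < D := by omega
      have K2 : 2 * (n + D) ≤ κ t + 1 := by
        rcases Nat.eq_zero_or_pos s0 with h0 | h0
        · rw [h0] at e2
          simp only [zero_add] at e2
          omega
        · by_contra hcon
          obtain ⟨u, u1, u2, u3, _⟩ := h2 0 s0 (n + D - 1) h0 ht0 (Or.inl (by
            simp only [zero_add]
            constructor <;> omega))
          exact hmin u u2 u3
      obtain ⟨m, m1, m2, m3⟩ := sy_far n D hDpos hD8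
      have hu : ∃ u, E u ∧ κ u = 2 * m + 1 := by
        rcases Nat.eq_or_lt_of_le m1 with hm | hm
        · exact ⟨s0, hE0, by omega⟩
        · have hlt' : s0 < t - 1 := by
            by_contra hcon
            have : s0 = t - 1 := by omega
            rw [this] at e1
            omega
          obtain ⟨u, _, _, u3, u4⟩ := h1 s0 (t - 1) m hlt' (by omega) (Or.inl ⟨by omega, by omega⟩)
          exact ⟨u, u3, u4⟩
      obtain ⟨u, hu1, hu2⟩ := hu
      obtain ⟨_, k, k', f1, f2, f3⟩ := hE u hu1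
      have hd := hls s0 u (hle u hu1) hE0 hu1
      have hk : k = m := by omega
      have hk' : k' = m + D := by omega
      rw [hk, hk'] at f3
      exact m3 f3
    · exact heq
    · exfalso
      obtain ⟨D, hD⟩ : ∃ D, n = n' + D := ⟨n - n', by omega⟩
      have hD8 : 8 ∣ D := by omega
      have hDpos : 0 < D := by omega
      have K2 : κ t ≤ 2 * n' + 3 := by
        rcases Nat.eq_zero_or_pos s0 with h0 | h0
        · rw [h0] at e2
          simp only [zero_add] at e2
          omega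
        · by_contra hcon
          obtain ⟨u, u1, u2, u3, _⟩ := h2 0 s0 (n' + 1) h0 ht0 (Or.inr (by
            simp only [zero_add]
            constructor <;> omega))
          exact hmin u u2 u3
      have hcov : ∀ m, n' + 2 ≤ m → m ≤ n → ∃ u, E u ∧ κ u = 2 * m + 1 := by
        intro m m1 m2
        rcases Nat.eq_or_lt_of_le m2 with hm | hm
        · exact ⟨s0, hE0, by omega⟩
        · have hlt' : s0 < t - 1 := by
            by_contra hcon
            have : s0 = t - 1 := by omega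
            rw [this] at e1
            omega
          obtain ⟨u, _, _, u3, u4⟩ := h1 s0 (t - 1) m hlt' (by omega) (Or.inr ⟨by omega, by omega⟩)
          exact ⟨u, u3, u4⟩
      have hpart : ∀ m, n' + 2 ≤ m → m ≤ n → D ≤ m ∧ sy (m - D) = sy m := by
        intro m m1 m2
        obtain ⟨u, hu1, hu2⟩ := hcov m m1 m2
        obtain ⟨_, k, k', f1, f2, f3⟩ := hE u hu1
        have hd := hls s0 u (hle u hu1) hE0 hu1
        have hk : k = m := by omega
        have hk' : k' + D = m := by omega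
        have hk'' : m - D = k' := by omega
        rw [hk] at f3
        exact ⟨by omega, by rw [hk'']; exact f3.symm⟩
      have hD2 := (hpart (n' + 2) le_rfl (by omega)).1
      obtain ⟨m, m1, m2, m3⟩ := sy_far (n' + 2 - D) D hDpos hD8
      have := (hpart (m + D) (by omega) (by omega)).2
      rw [Nat.add_sub_cancel] at this
      exact m3 this
  have hd := hls s0 s (hle s hs) hE0 hs
  subst key
  omega

end Pool.Agent.FBD
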