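import Pool.Agent.Lib.MP_fbd18f_co.Defs
import Pool.Agent.Lib.MP_fbd18f_co.ARITH
import Pool.Agent.Lib.MP_fbd18f_co.SYNC
import Pool.Agent.Lib.MP_fbd18f_co.KAPPA
import Pool.Agent.Lib.MP_fbd18f_co.CONT

set_option autoImplicit false

namespace Pool.Agent.FBD

/-- a minimal crossing: between a time with `L` and a later time with `R` -/
theorem min_cross (L R : ℕ → Prop) (a c : ℕ) (hac : a < c) (hL : L a) (hR : R c) :
    ∃ a' c', a ≤ a' ∧ a' < c' ∧ c' ≤ c ∧ L a' ∧ R c' ∧ ∀ s, a' < s → s < c' → ¬ L s ∧ ¬ R s := by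
  classical
  induction hn : c - a using Nat.strong_induction_on generalizing a c with
  | _ n ih =>
    by_cases h : ∃ s, a < s ∧ s < c ∧ (L s ∨ R s)
    · obtain ⟨s, h1, h2, h3 | h3⟩ := h
      · obtain ⟨a', c', k1, k2, k3, k4⟩ := ih (c - s) (by omega) s c h2 h3 hR rfl
        exact ⟨a', c', by omega, k2, k3, k4⟩
      · obtain ⟨a', c', k1, k2, k3, k4⟩ := ih (s - a) (by omega) a s h1 hL h3 rfl
        exact ⟨a', c', k1, k2, by omega, k4⟩
    · push Not at h
      exact ⟨a, c, le_refl _, hac, le_refl _, hL, hR, fun s h1 h2 => h s h1 h2⟩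

namespace Sys

variable {V : Type} (S : Sys V)

theorem rg_child {e g x : ℕ} (he : e + 1 < S.r) (hx : x ∈ S.T e g) :
    S.rg (e + 1) (g / S.b) x ≤ S.rg e g x := by
  have h1 := S.ch1 e g he x hx
  have h2 := S.ch2 e g he x hx
  have h3 := S.ch3 e g he x hx
  have h4 := S.ch4 e g he x hx
  have h5 := S.ordT (e + 1) (g / S.b) he x h1 _ h2 h3
  have h6 := S.rg_le (e + 1) (g / S.b) _ he h2
  omega

theorem col_lam {v v' : V} (h : S.col v = S.col v') : S.lam v = S.lam v' :=
  congrArg Prod.fst h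

/-- the claim for a minimal crossing, given the claim for the next type -/
theorem claim_min {e g : ℕ} (he : e < S.r) (u u' : ℕ → V) (a c : ℕ) (hac : a < c)
    (hmeet : ∀ s, a ≤ s → s < c → S.mt (u s) (u (s + 1)) ∧ S.mt (u' s) (u' (s + 1)))
    (hcol : ∀ s, a ≤ s → s ≤ c → S.col (u s) = S.col (u' s))
    (hlay : ∀ s, a < s → s < c → (g + 1) * S.b ^ e ≤ S.lam (u s))
    (x : ℕ) (hx : x ∈ S.T e g)
    (hcr : (S.hi (u a) < x ∧ S.rg e g x < S.lo (u c)) ∨
      (S.hi (u c) < x ∧ S.rg e g x < S.lo (u a)))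
    (htch : ∀ s, a < s → s < c → S.tch (u s) e g x)
    (IH : e + 1 < S.r → ∀ (u u' : ℕ → V) (a c : ℕ), a < c →
      (∀ s, a ≤ s → s < c → S.mt (u s) (u (s + 1)) ∧ S.mt (u' s) (u' (s + 1))) →
      (∀ s, a ≤ s → s ≤ c → S.col (u s) = S.col (u' s)) →
      (∀ s, a < s → s < c → (g / S.b + 1) * S.b ^ (e + 1) ≤ S.lam (u s)) →
      ∀ (x : ℕ), x ∈ S.T (e + 1) (g / S.b) →
      ((S.hi (u a) < x ∧ S.rg (e + 1) (g / S.b) x < S.lo (u c)) ∨
        (S.hi (u c) < x ∧ S.rg (e + 1) (g / S.b) x < S.lo (u a))) →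
      ∃ s, a < s ∧ s < c ∧ S.tch (u s) (e + 1) (g / S.b) x ∧
        ∃ x' ∈ S.T (e + 1) (g / S.b), S.tch (u' s) (e + 1) (g / S.b) x' ∧
          S.cont (e + 1) (g / S.b) x = S.cont (e + 1) (g / S.b) x') :
    ∃ s, a < s ∧ s < c ∧ S.tch (u s) e g x ∧
      ∃ x' ∈ S.T e g, S.tch (u' s) e g x' ∧ S.cont e g x = S.cont e g x' := by
  have hb := S.hb
  have hbpos : 0 < S.b := by omega
  have hxr := S.rg_le e g x he hx
  -- there is an interior time
  have hint : a + 1 < c := by
    by_contra hcon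
    have hc : c = a + 1 := by omega
    have hm := (hmeet a (le_refl _) (by omega)).1
    rw [← hc] at hm
    obtain ⟨m1, m2⟩ := hm
    rcases hcr with ⟨k1, k2⟩ | ⟨k1, k2⟩
    · omega
    · omega
  by_cases hA : ∃ s, a < s ∧ s < c ∧ S.lam (u s) / S.b ^ (e + 1) = g / S.b
  · obtain ⟨s, h1, h2, h3⟩ := hA
    have hl := hlay s h1 h2
    have hO : S.Ob (S.lam (u s)) e g := by
      refine ⟨he, ?_, h3.symm⟩
      have : g + 1 ≤ S.lam (u s) / S.b ^ e := by
        rw [Nat.le_div_iff_mul_le (pow_pos hbpos e)]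
        exact hl
      omega
    obtain ⟨x', hx', t', hc'⟩ := S.reveal (hcol s h1.le h2.le) hO hx (htch s h1 h2)
    exact ⟨s, h1, h2, htch s h1 h2, x', hx', t', hc'⟩
  · push Not at hA
    -- all interior layers are above the parent block
    have hup : ∀ s, a < s → s < c → (g / S.b + 1) * S.b ^ (e + 1) ≤ S.lam (u s) := by
      intro s h1 h2
      have hl := hlay s h1 h2
      have hne := hA s h1 h2
      have k1 : g + 1 ≤ S.lam (u s) / S.b ^ e := by
        rw [Nat.le_div_iff_mul_le (pow_pos hbpos e)]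
        exact hl
      have k2 : g / S.b ≤ S.lam (u s) / S.b ^ e / S.b := Nat.div_le_div_right (by omega)
      rw [Nat.div_div_eq_div_mul, ← pow_succ] at k2
      rw [← Nat.le_div_iff_mul_le (pow_pos hbpos (e + 1))]
      omega
    have he1 : e + 1 < S.r := by
      by_contra hcon
      have her : S.r = e + 1 := by omega
      have h1 := hup (a + 1) (by omega) hint
      have h2 := S.hlam (u (a + 1))
      rw [her] at h2
      have h3 : 1 * S.b ^ (e + 1) ≤ (g / S.b + 1) * S.b ^ (e + 1) :=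
        Nat.mul_le_mul_right _ (Nat.succ_le_succ (Nat.zero_le _))
      omega
    have IH' := IH he1
    set G := g / S.b with hG
    have hx1 : x ∈ S.T (e + 1) G := S.ch1 e g he1 x hx
    have hx2 : S.nx e g x ∈ S.T (e + 1) G := S.ch2 e g he1 x hx
    have hlt : x < S.nx e g x := S.ch3 e g he1 x hx
    have hr1 : S.rg (e + 1) G x ≤ S.rg e g x := S.rg_child he1 hx
    have hr2 : S.rg (e + 1) G (S.nx e g x) ≤ S.rg e g x := S.ch4 e g he1 x hx
    -- events
    obtain ⟨s1, a1, c1, t1, y1, hy1, t1', hc1⟩ := IH' u u' a c hac hmeet hcol hup x hx1 (by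
      rcases hcr with ⟨k1, k2⟩ | ⟨k1, k2⟩
      · left; exact ⟨k1, by omega⟩
      · right; exact ⟨k1, by omega⟩)
    obtain ⟨s2, a2, c2, t2, y2, hy2, t2', hc2⟩ := IH' u u' a c hac hmeet hcol hup _ hx2 (by
      rcases hcr with ⟨k1, k2⟩ | ⟨k1, k2⟩
      · left; exact ⟨by omega, by omega⟩
      · right; exact ⟨by omega, by omega⟩)
    have hup' : ∀ s, a < s → s < c → (G + 1) * S.b ^ (e + 1) ≤ S.lam (u' s) := by
      intro s h1 h2
      rw [← S.col_lam (hcol s h1.le h2.le)]
      exact hup s h1 h2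
    have hsync := lsync (fun s => S.kap (e + 1) G (u s)) (fun s => S.kap (e + 1) G (u' s))
      (a + 1) (c - 1)
      (fun s => a < s ∧ s < c ∧ ∃ y ∈ S.T (e + 1) G, ∃ y' ∈ S.T (e + 1) G,
        S.tch (u s) (e + 1) G y ∧ S.tch (u' s) (e + 1) G y' ∧
          S.cont (e + 1) G y = S.cont (e + 1) G y')
      (by
        rintro s ⟨h1, h2, y, hy, y', hy', t, t', hcc⟩
        refine ⟨S.idx (e + 1) G y, S.idx (e + 1) G y', ?_, ?_, S.cont_sy hcc⟩
        · exact (S.kap_eq he1 hy (hup s h1 h2)).2 t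
        · exact (S.kap_eq he1 hy' (hup' s h1 h2)).2 t')
      (by
        intro s s' n k1 k2 k3 hk
        have hn : ∃ y ∈ S.T (e + 1) G, S.idx (e + 1) G y = n := by
          rcases hk with ⟨_, k⟩ | ⟨_, k⟩
          · exact S.exists_idx k
          · exact S.exists_idx k
        obtain ⟨y, hy, hyn⟩ := hn
        subst hyn
        have hcr' : (S.hi (u s) < y ∧ S.rg (e + 1) G y < S.lo (u s')) ∨
            (S.hi (u s') < y ∧ S.rg (e + 1) G y < S.lo (u s)) := by
          rcases hk with ⟨m1, m2⟩ | ⟨m1, m2⟩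
          · left
            exact ⟨(S.kap_lt he1 hy (hup s (by omega) (by omega))).1 m1,
              (S.kap_gt he1 hy (hup s' (by omega) (by omega))).1 m2⟩
          · right
            exact ⟨(S.kap_lt he1 hy (hup s' (by omega) (by omega))).1 m1,
              (S.kap_gt he1 hy (hup s (by omega) (by omega))).1 m2⟩
        obtain ⟨τ, q1, q2, q3, y', hy', q4, q5⟩ := IH' u u' s s' k2
          (fun i i1 i2 => hmeet i (by omega) (by omega))
          (fun i i1 i2 => hcol i (by omega) (by omega))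
          (fun i i1 i2 => hup i (by omega) (by omega)) y hy hcr'
        exact ⟨τ, q1, q2, by omega, by omega, y, hy, y', hy', q3, q4, q5⟩)
      (by
        intro s s' n k1 k2 k3 hk
        have hn : ∃ y ∈ S.T (e + 1) G, S.idx (e + 1) G y = n := by
          rcases hk with ⟨_, k⟩ | ⟨_, k⟩
          · exact S.exists_idx k
          · exact S.exists_idx k
        obtain ⟨y, hy, hyn⟩ := hn
        subst hyn
        have hcr' : (S.hi (u' s) < y ∧ S.rg (e + 1) G y < S.lo (u' s')) ∨
            (S.hi (u' s') < y ∧ S.rg (e + 1) G y < S.lo (u' s)) := by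
          rcases hk with ⟨m1, m2⟩ | ⟨m1, m2⟩
          · left
            exact ⟨(S.kap_lt he1 hy (hup' s (by omega) (by omega))).1 m1,
              (S.kap_gt he1 hy (hup' s' (by omega) (by omega))).1 m2⟩
          · right
            exact ⟨(S.kap_lt he1 hy (hup' s' (by omega) (by omega))).1 m1,
              (S.kap_gt he1 hy (hup' s (by omega) (by omega))).1 m2⟩
        obtain ⟨τ, q1, q2, q3, y', hy', q4, q5⟩ := IH' u' u s s' k2
          (fun i i1 i2 => (hmeet i (by omega) (by omega)).symm)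
          (fun i i1 i2 => (hcol i (by omega) (by omega)).symm)
          (fun i i1 i2 => hup' i (by omega) (by omega)) y hy hcr'
        exact ⟨τ, q1, q2, by omega, by omega, y', hy', y, hy, q4, q3, q5.symm⟩)
    have E1 := (⟨a1, c1, x, hx1, y1, hy1, t1, t1', hc1⟩ : a < s1 ∧ s1 < c ∧
      ∃ y ∈ S.T (e + 1) G, ∃ y' ∈ S.T (e + 1) G,
        S.tch (u s1) (e + 1) G y ∧ S.tch (u' s1) (e + 1) G y' ∧
          S.cont (e + 1) G y = S.cont (e + 1) G y')
    have E2 := (⟨a2, c2, _, hx2, y2, hy2, t2, t2', hc2⟩ : a < s2 ∧ s2 < c ∧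
      ∃ y ∈ S.T (e + 1) G, ∃ y' ∈ S.T (e + 1) G,
        S.tch (u s2) (e + 1) G y ∧ S.tch (u' s2) (e + 1) G y' ∧
          S.cont (e + 1) G y = S.cont (e + 1) G y')
    have K1 := (S.kap_eq he1 hx1 (hup s1 a1 c1)).2 t1
    have K1' := (S.kap_eq he1 hy1 (hup' s1 a1 c1)).2 t1'
    have K2 := (S.kap_eq he1 hx2 (hup s2 a2 c2)).2 t2
    have K2' := (S.kap_eq he1 hy2 (hup' s2 a2 c2)).2 t2'
    have hnext := S.idx_next he1 hx
    have hidx : S.idx (e + 1) G y2 = S.idx (e + 1) G y1 + 1 := by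
      rcases le_total s1 s2 with h | h
      · have := hsync s1 s2 (by omega) h (by omega) E1 E2
        rw [K1, K1', K2, K2'] at this
        rw [← hG] at hnext
        push_cast at this
        omega
      · have := hsync s2 s1 (by omega) h (by omega) E2 E1
        rw [K1, K1', K2, K2'] at this
        rw [← hG] at hnext
        push_cast at this
        omega
    -- first partner
    have hgb : g % S.b < S.b := Nat.mod_lt _ hbpos
    have hF : y1 ∈ S.T e g := by
      obtain ⟨g1, x1, hg1, hx1', h | h⟩ := S.par e G he1 y1 hy1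
      · subst h
        have k1 := S.cont_fst he1 hx
        have k2 := S.cont_fst he1 hx1'
        rw [hg1] at k2
        rw [← hG] at k1
        have k3 := sy_lt (S.idx (e + 1) G x)
        have k4 := sy_lt (S.idx (e + 1) G y1)
        have k5 : g % S.b = g1 % S.b := by omega
        have k6 : g = g1 := by
          rw [← Nat.div_add_mod g S.b, ← Nat.div_add_mod g1 S.b, k5, hg1]
        rw [k6]
        exact hx1'
      · exfalso
        subst h
        have k1 := S.cont_fst he1 hx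
        have k2 := S.cont_snd he1 hx1'
        rw [hg1] at k2
        rw [← hG] at k1
        have k3 := sy_lt (S.idx (e + 1) G x)
        have k4 := sy_lt (S.idx (e + 1) G (S.nx e g1 x1))
        omega
    obtain ⟨g3, x3, hg3, hx3, h3 | h3⟩ := S.par e G he1 y2 hy2
    · exfalso
      subst h3
      have k1 := S.cont_snd he1 hx
      have k2 := S.cont_fst he1 hx3
      rw [hg3] at k2
      rw [← hG] at k1
      have k3 := sy_lt (S.idx (e + 1) G (S.nx e g x))
      have k4 := sy_lt (S.idx (e + 1) G y2)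
      have k5 : g3 % S.b < S.b := Nat.mod_lt _ hbpos
      omega
    · have k1 := S.cont_snd he1 hx
      have k2 := S.cont_snd he1 hx3
      rw [hg3, ← h3] at k2
      rw [← hG] at k1
      have k3 := sy_lt (S.idx (e + 1) G (S.nx e g x))
      have k4 := sy_lt (S.idx (e + 1) G y2)
      have k5 : S.cont e g x = S.cont e g3 x3 := by omega
      have k6 := S.idx_next he1 hF
      rw [← hG] at k6
      have k7 : y2 = S.nx e g y1 :=
        S.idx_inj hy2 (S.ch2 e g he1 y1 hF) (by rw [hidx, k6])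
      have k8 : x3 = y1 := S.un3 e g3 g he1 (by rw [hg3]) x3 hx3 y1 hF (by rw [← h3, k7])
      have k9 : g3 = g := S.un2 e g3 g he1 (by rw [hg3]) x3 hx3 (by rw [k8]; exact hF)
      refine ⟨s1, a1, c1, htch s1 a1 c1, y1, hF, ?_, by rw [k5, k9, k8]⟩
      have k10 := S.rg_child he1 hF
      exact ⟨le_trans t1'.1 k10, t1'.2⟩

theorem claim {e g : ℕ} (he : e < S.r) (u u' : ℕ → V) (a c : ℕ) (hac : a < c)
    (hmeet : ∀ s, a ≤ s → s < c → S.mt (u s) (u (s + 1)) ∧ S.mt (u' s) (u' (s + 1)))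
    (hcol : ∀ s, a ≤ s → s ≤ c → S.col (u s) = S.col (u' s))
    (hlay : ∀ s, a < s → s < c → (g + 1) * S.b ^ e ≤ S.lam (u s))
    (x : ℕ) (hx : x ∈ S.T e g)
    (hcr : (S.hi (u a) < x ∧ S.rg e g x < S.lo (u c)) ∨
      (S.hi (u c) < x ∧ S.rg e g x < S.lo (u a))) :
    ∃ s, a < s ∧ s < c ∧ S.tch (u s) e g x ∧
      ∃ x' ∈ S.T e g, S.tch (u' s) e g x' ∧ S.cont e g x = S.cont e g x' := by
  induction hn : S.r - e using Nat.strong_induction_on generalizing e g u u' a c x with
  | _ n ih =>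
    have IH : e + 1 < S.r → ∀ (u u' : ℕ → V) (a c : ℕ), a < c →
      (∀ s, a ≤ s → s < c → S.mt (u s) (u (s + 1)) ∧ S.mt (u' s) (u' (s + 1))) →
      (∀ s, a ≤ s → s ≤ c → S.col (u s) = S.col (u' s)) →
      (∀ s, a < s → s < c → (g / S.b + 1) * S.b ^ (e + 1) ≤ S.lam (u s)) →
      ∀ (x : ℕ), x ∈ S.T (e + 1) (g / S.b) →
      ((S.hi (u a) < x ∧ S.rg (e + 1) (g / S.b) x < S.lo (u c)) ∨
        (S.hi (u c) < x ∧ S.rg (e + 1) (g / S.b) x < S.lo (u a))) →
      ∃ s, a < s ∧ s < c ∧ S.tch (u s) (e + 1) (g / S.b) x ∧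
        ∃ x' ∈ S.T (e + 1) (g / S.b), S.tch (u' s) (e + 1) (g / S.b) x' ∧
          S.cont (e + 1) (g / S.b) x = S.cont (e + 1) (g / S.b) x' := by
      intro he1 u u' a c hac hmeet hcol hlay x hx hcr
      exact ih (S.r - (e + 1)) (by omega) he1 u u' a c hac hmeet hcol hlay x hx hcr rfl
    have hxr := S.rg_le e g x he hx
    rcases hcr with ⟨k1, k2⟩ | ⟨k1, k2⟩
    · obtain ⟨a', c', m1, m2, m3, m4, m5, m6⟩ := min_cross (fun s => S.hi (u s) < x)
        (fun s => S.rg e g x < S.lo (u s)) a c hac k1 k2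
      obtain ⟨s, q1, q2, q3⟩ := S.claim_min he u u' a' c' m2
        (fun s h1 h2 => hmeet s (by omega) (by omega))
        (fun s h1 h2 => hcol s (by omega) (by omega))
        (fun s h1 h2 => hlay s (by omega) (by omega)) x hx (Or.inl ⟨m4, m5⟩)
        (by
          intro s h1 h2
          have := m6 s h1 h2
          simp only [not_lt] at this
          exact ⟨this.2, this.1⟩) IH
      exact ⟨s, by omega, by omega, q3⟩
    · obtain ⟨a', c', m1, m2, m3, m4, m5, m6⟩ := min_cross
        (fun s => S.rg e g x < S.lo (u s)) (fun s => S.hi (u s) < x) a c hac k2 k1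
      obtain ⟨s, q1, q2, q3⟩ := S.claim_min he u u' a' c' m2
        (fun s h1 h2 => hmeet s (by omega) (by omega))
        (fun s h1 h2 => hcol s (by omega) (by omega))
        (fun s h1 h2 => hlay s (by omega) (by omega)) x hx (Or.inr ⟨m5, m4⟩)
        (by
          intro s h1 h2
          have := m6 s h1 h2
          simp only [not_lt] at this
          exact ⟨this.1, this.2⟩) IH
      exact ⟨s, by omega, by omega, q3⟩

end Sys

end Pool.Agent.FBD
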