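import Pool.Agent.Lib.MP_fbd18f_co.CONT

set_option autoImplicit false

namespace Pool.Agent.FBD

theorem KK_mono (b : ℕ) {e e' : ℕ} (h : e ≤ e') : KK b e ≤ KK b e' := by
  induction h with
  | refl => exact le_rfl
  | step _ ih =>
    refine ih.trans ?_
    rw [KK]
    omega

namespace Sys

variable {V : Type} (S : Sys V)

theorem col_count (w P : ℕ) (hw : ∀ v, S.lam v ≤ w) (hP : ∀ v, S.ps v < P) :
    ∃ c : V → Fin ((w + 1) * P * (1 + S.r * S.b * KK S.b S.r)),
      ∀ v v', c v = c v' → S.col v = S.col v' := by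
  classical
  have hcard : Fintype.card (Fin (w + 1) × Fin P × Option (Fin S.r × Fin S.b × Fin (KK S.b S.r)))
      = (w + 1) * P * (1 + S.r * S.b * KK S.b S.r) := by
    simp only [Fintype.card_prod, Fintype.card_fin, Fintype.card_option]
    ring
  let eqv := Fintype.equivFinOfCardEq hcard
  have hex : ∀ v : V, ∃ q : Fin (w + 1) × Fin P × Option (Fin S.r × Fin S.b × Fin (KK S.b S.r)),
      S.col v = (q.1.1, q.2.1.1, q.2.2.map (fun z => (z.1.1, z.2.1.1, z.2.2.1))) := by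
    intro v
    have h1 : S.lam v < w + 1 := Nat.lt_succ_of_le (hw v)
    rcases hd : S.dir v with _ | ⟨e, d, c⟩
    · refine ⟨(⟨S.lam v, h1⟩, ⟨S.ps v, hP v⟩, none), ?_⟩
      rw [col, hd]; rfl
    · obtain ⟨he, hd', hc⟩ := S.dir_range hd
      refine ⟨(⟨S.lam v, h1⟩, ⟨S.ps v, hP v⟩,
        some (⟨e, he⟩, ⟨d, hd'⟩, ⟨c, lt_of_lt_of_le hc (KK_mono _ he.le)⟩)), ?_⟩
      rw [col, hd]; rfl
  choose f hf using hex
  refine ⟨fun v => eqv (f v), fun v v' h => ?_⟩
  have := eqv.injective h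
  rw [hf v, hf v', this]

end Sys

theorem KK_le (b e : ℕ) (hb : 1 ≤ b) : KK b e ≤ 128 ^ (e + 1) * b := by
  induction e with
  | zero => rw [KK]; omega
  | succ e ih =>
    rw [KK]
    have h1 : 1 ≤ 128 ^ (e + 1) := Nat.one_le_pow _ _ (by norm_num)
    have h2 : b ≤ 128 ^ (e + 1) * b := Nat.le_mul_of_pos_left b h1
    have h3 : 128 ^ (e + 1 + 1) * b = 128 * (128 ^ (e + 1) * b) := by ring
    rw [h3]
    omega

end Pool.Agent.FBD
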