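import Pool.Agent.Lib.MP_fbd18f_co.CLAIM
import Pool.Agent.Lib.MP_fbd18f_co.KAPPA
import Pool.Agent.Lib.MP_fbd18f_co.SYNC

set_option autoImplicit false

namespace Pool.Agent.FBD

namespace Sys

variable {V : Type} (S : Sys V)

theorem ob_le {j e g : ℕ} (h : S.Ob j e g) : (g + 1) * S.b ^ e ≤ j := by
  obtain ⟨_, h2, _⟩ := h
  calc (g + 1) * S.b ^ e ≤ (j / S.b ^ e) * S.b ^ e := Nat.mul_le_mul_right _ h2
    _ ≤ j := Nat.div_mul_le_self _ _

/-- the purely combinatorial end of the argument -/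
theorem end_game (t : ℕ) (Q0 Q1 : ℕ → V) (s : ℕ) (hs : s < t) {e g z e' g' z' : ℕ}
    (hz : z ≤ S.rg e g z) (hzz : S.rg e g z < z') (hz' : z' ≤ S.rg e' g' z')
    (hsep0 : ∀ v v', (∃ i, i < t ∧ (v = Q0 i ∨ v = Q1 i)) → (∃ i, i < t ∧ (v' = Q0 i ∨ v' = Q1 i)) →
      S.mt v v' → S.tch v e g z → S.tch v' e' g' z' → False)
    (hself : ∀ v, S.mt v v)
    (C0 : ∀ i j, i < j → j < t → (S.hi (Q0 i) < z ∧ S.rg e g z < S.lo (Q0 j) ∨
      S.hi (Q0 j) < z ∧ S.rg e g z < S.lo (Q0 i)) →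
      ∃ τ, i < τ ∧ τ < j ∧ S.tch (Q0 τ) e g z ∧ S.tch (Q1 τ) e g z)
    (C1 : ∀ i j, i < j → j < t → (S.hi (Q1 i) < z' ∧ S.rg e' g' z' < S.lo (Q1 j) ∨
      S.hi (Q1 j) < z' ∧ S.rg e' g' z' < S.lo (Q1 i)) →
      ∃ τ, i < τ ∧ τ < j ∧ S.tch (Q0 τ) e' g' z' ∧ S.tch (Q1 τ) e' g' z')
    (hl : S.hi (Q0 s) < z) (hr : S.rg e' g' z' < S.lo (Q1 s))
    (i0 i1 : ℕ) (hi0 : i0 < t) (hi1 : i1 < t) (hj : S.mt (Q0 i0) (Q1 i1)) : False := by
  have q0 : ∀ i, i < t → ∃ i', i' < t ∧ (Q0 i = Q0 i' ∨ Q0 i = Q1 i') := fun i hi =>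
    ⟨i, hi, Or.inl rfl⟩
  have q1 : ∀ i, i < t → ∃ i', i' < t ∧ (Q1 i = Q0 i' ∨ Q1 i = Q1 i') := fun i hi =>
    ⟨i, hi, Or.inr rfl⟩
  have hle := S.hle
  -- no events
  have key : ∀ d τ, τ < t → (τ = s + d ∨ s = τ + d) →
      ¬ ((S.tch (Q0 τ) e g z ∧ S.tch (Q1 τ) e g z) ∨
        (S.tch (Q0 τ) e' g' z' ∧ S.tch (Q1 τ) e' g' z')) := by
    intro d
    induction d using Nat.strong_induction_on with
    | _ d ih =>
      intro τ hτ hd hE
      have hne : τ ≠ s := by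
        rintro rfl
        rcases hE with ⟨h, _⟩ | ⟨h, _⟩
        · have := h.2; omega
        · have := h.2; omega
      rcases hE with ⟨_, h⟩ | ⟨h, _⟩
      · -- Q1 τ touches z, hence left of z'
        have hn : ¬ S.tch (Q1 τ) e' g' z' := fun h' =>
          hsep0 _ _ (q1 τ hτ) (q1 τ hτ) (hself _) h h'
        have hlt : S.hi (Q1 τ) < z' := by
          by_contra hc
          apply hn
          exact ⟨by have := h.1; omega, by omega⟩
        rcases hd with hd | hd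
        · obtain ⟨τ', h1, h2, h3, h4⟩ := C1 s τ (by omega) hτ (Or.inr ⟨hlt, hr⟩)
          exact ih (τ' - s) (by omega) τ' (by omega) (Or.inl (by omega)) (Or.inr ⟨h3, h4⟩)
        · obtain ⟨τ', h1, h2, h3, h4⟩ := C1 τ s (by omega) hs (Or.inl ⟨hlt, hr⟩)
          exact ih (s - τ') (by omega) τ' (by omega) (Or.inr (by omega)) (Or.inr ⟨h3, h4⟩)
      · have hn : ¬ S.tch (Q0 τ) e g z := fun h' =>
          hsep0 _ _ (q0 τ hτ) (q0 τ hτ) (hself _) h' h
        have hgt : S.rg e g z < S.lo (Q0 τ) := by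
          by_contra hc
          apply hn
          exact ⟨by omega, by have := h.2; omega⟩
        rcases hd with hd | hd
        · obtain ⟨τ', h1, h2, h3, h4⟩ := C0 s τ (by omega) hτ (Or.inl ⟨hl, hgt⟩)
          exact ih (τ' - s) (by omega) τ' (by omega) (Or.inl (by omega)) (Or.inl ⟨h3, h4⟩)
        · obtain ⟨τ', h1, h2, h3, h4⟩ := C0 τ s (by omega) hs (Or.inr ⟨hl, hgt⟩)
          exact ih (s - τ') (by omega) τ' (by omega) (Or.inr (by omega)) (Or.inl ⟨h3, h4⟩)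
  have noE : ∀ τ, τ < t → ¬ ((S.tch (Q0 τ) e g z ∧ S.tch (Q1 τ) e g z) ∨
        (S.tch (Q0 τ) e' g' z' ∧ S.tch (Q1 τ) e' g' z')) := by
    intro τ hτ
    rcases le_total s τ with h | h
    · exact key (τ - s) τ hτ (Or.inl (by omega))
    · exact key (s - τ) τ hτ (Or.inr (by omega))
  -- Q0 is never right of z
  have hα : ∀ i, i < t → ¬ (S.rg e g z < S.lo (Q0 i)) := by
    intro i hi hc
    rcases lt_trichotomy s i with h | h | h
    · obtain ⟨τ', h1, h2, h3, h4⟩ := C0 s i h hi (Or.inl ⟨hl, hc⟩)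
      exact noE τ' (by omega) (Or.inl ⟨h3, h4⟩)
    · subst h
      have := hle (Q0 s)
      omega
    · obtain ⟨τ', h1, h2, h3, h4⟩ := C0 i s h hs (Or.inr ⟨hl, hc⟩)
      exact noE τ' (by omega) (Or.inl ⟨h3, h4⟩)
  have hβ : ∀ i, i < t → ¬ (S.hi (Q1 i) < z') := by
    intro i hi hc
    rcases lt_trichotomy s i with h | h | h
    · obtain ⟨τ', h1, h2, h3, h4⟩ := C1 s i h hi (Or.inr ⟨hc, hr⟩)
      exact noE τ' (by omega) (Or.inr ⟨h3, h4⟩)
    · subst h
      have := hle (Q1 s)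
      omega
    · obtain ⟨τ', h1, h2, h3, h4⟩ := C1 i s h hs (Or.inl ⟨hc, hr⟩)
      exact noE τ' (by omega) (Or.inr ⟨h3, h4⟩)
  have hα0 := hα i0 hi0
  have hβ1 := hβ i1 hi1
  push Not at hα0 hβ1
  have hm1 := hj.1
  have hm2 := hj.2
  have hle0 := hle (Q0 i0)
  have hle1 := hle (Q1 i1)
  by_cases hc : z ≤ S.hi (Q0 i0)
  · have hta : S.tch (Q0 i0) e g z := ⟨hα0, hc⟩
    by_cases hd : S.lo (Q1 i1) ≤ S.rg e' g' z'
    · exact hsep0 _ _ (q0 i0 hi0) (q1 i1 hi1) hj hta ⟨hd, hβ1⟩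
    · refine hsep0 _ _ (q0 i0 hi0) (q0 i0 hi0) (hself _) hta ⟨by omega, by omega⟩
  · refine hsep0 _ _ (q1 i1 hi1) (q1 i1 hi1) (hself _) ⟨by omega, by omega⟩ ⟨by omega, hβ1⟩

/-- synchronised visits of an object -/
theorem sync_visits (t : ℕ) (p : ℕ → V)
    (hadj : ∀ i, i + 1 < 2 * t → S.mt (p i) (p (i + 1)))
    (hcol : ∀ i, i < t → S.col (p i) = S.col (p (i + t))) {j e g : ℕ} (hO : S.Ob j e g)
    (hj : ∀ i, i < 2 * t → j ≤ S.lam (p i)) (x : ℕ) (hx : x ∈ S.T e g) (i i' : ℕ) (hii : i < i')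
    (hi' : i' < t) :
    ((S.hi (p i) < x ∧ S.rg e g x < S.lo (p i') ∨ S.hi (p i') < x ∧ S.rg e g x < S.lo (p i)) →
      ∃ τ, i < τ ∧ τ < i' ∧ S.tch (p τ) e g x ∧ S.tch (p (τ + t)) e g x) ∧
    ((S.hi (p (i + t)) < x ∧ S.rg e g x < S.lo (p (i' + t)) ∨
        S.hi (p (i' + t)) < x ∧ S.rg e g x < S.lo (p (i + t))) →
      ∃ τ, i < τ ∧ τ < i' ∧ S.tch (p τ) e g x ∧ S.tch (p (τ + t)) e g x) := by
  have he : e < S.r := hO.1
  have hlay : ∀ i, i < 2 * t → (g + 1) * S.b ^ e ≤ S.lam (p i) := fun i hi =>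
    le_trans (S.ob_le hO) (hj i hi)
  -- crossing claims
  have cl1 : ∀ y ∈ S.T e g, ∀ i i', i < i' → i' < t →
      (S.hi (p i) < y ∧ S.rg e g y < S.lo (p i') ∨ S.hi (p i') < y ∧ S.rg e g y < S.lo (p i)) →
      ∃ τ, i < τ ∧ τ < i' ∧ S.tch (p τ) e g y ∧
        ∃ y' ∈ S.T e g, S.tch (p (τ + t)) e g y' ∧ S.cont e g y = S.cont e g y' := by
    intro y hy i i' h1 h2 hcr
    refine S.claim he p (fun s => p (s + t)) i i' h1 ?_ ?_ ?_ y hy hcr
    · intro s hs1 hs2
      refine ⟨hadj s (by omega), ?_⟩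
      have := hadj (s + t) (by omega)
      rw [show s + t + 1 = s + 1 + t by omega] at this
      exact this
    · intro s hs1 hs2
      exact hcol s (by omega)
    · intro s hs1 hs2
      exact hlay s (by omega)
  have cl2 : ∀ y ∈ S.T e g, ∀ i i', i < i' → i' < t →
      (S.hi (p (i + t)) < y ∧ S.rg e g y < S.lo (p (i' + t)) ∨
        S.hi (p (i' + t)) < y ∧ S.rg e g y < S.lo (p (i + t))) →
      ∃ τ, i < τ ∧ τ < i' ∧ S.tch (p (τ + t)) e g y ∧
        ∃ y' ∈ S.T e g, S.tch (p τ) e g y' ∧ S.cont e g y = S.cont e g y' := by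
    intro y hy i i' h1 h2 hcr
    refine S.claim he (fun s => p (s + t)) p i i' h1 ?_ ?_ ?_ y hy hcr
    · intro s hs1 hs2
      refine ⟨?_, hadj s (by omega)⟩
      have := hadj (s + t) (by omega)
      rw [show s + t + 1 = s + 1 + t by omega] at this
      exact this
    · intro s hs1 hs2
      exact (hcol s (by omega)).symm
    · intro s hs1 hs2
      exact hlay (s + t) (by omega)
  -- the events
  let κ : ℕ → ℕ := fun i => S.kap e g (p i)
  let E : ℕ → Prop := fun τ => τ < t ∧ ∃ y y', y ∈ S.T e g ∧ y' ∈ S.T e g ∧ S.tch (p τ) e g y ∧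
    S.tch (p (τ + t)) e g y' ∧ sy (S.idx e g y) = sy (S.idx e g y')
  have gs : ∀ τ, E τ → κ τ = κ (τ + t) := by
    intro τ hτ
    refine gsync t κ E ?_ ?_ ?_ ?_ τ hτ
    · intro s hs
      constructor
      · exact S.kap_step he (hlay s (by omega)) (hlay (s + 1) (by omega)) (hadj s hs)
      · refine S.kap_step he (hlay (s + 1) (by omega)) (hlay s (by omega)) ?_
        have := hadj s hs
        exact ⟨this.2, this.1⟩
    · rintro s ⟨hs, y, y', hy, hy', h1, h2, h3⟩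
      refine ⟨hs, S.idx e g y, S.idx e g y', ?_, ?_, h3⟩
      · exact (S.kap_eq he hy (hlay s (by omega))).mpr h1
      · exact (S.kap_eq he hy' (hlay (s + t) (by omega))).mpr h2
    · intro s s' n hss hs' hcr
      have hex : ∃ y ∈ S.T e g, S.idx e g y = n := by
        rcases hcr with h | h
        · exact S.exists_idx h.2
        · exact S.exists_idx h.2
      obtain ⟨y, hy, hyn⟩ := hex
      subst hyn
      have hls := hlay s (by omega)
      have hls' := hlay s' (by omega)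
      have hcr' : S.hi (p s) < y ∧ S.rg e g y < S.lo (p s') ∨
          S.hi (p s') < y ∧ S.rg e g y < S.lo (p s) := by
        rcases hcr with h | h
        · exact Or.inl ⟨(S.kap_lt he hy hls).mp h.1, (S.kap_gt he hy hls').mp h.2⟩
        · exact Or.inr ⟨(S.kap_lt he hy hls').mp h.1, (S.kap_gt he hy hls).mp h.2⟩
      obtain ⟨u, hu1, hu2, hu3, y', hy', hu4, hu5⟩ := cl1 y hy s s' hss hs' hcr'
      refine ⟨u, hu1, hu2, ⟨by omega, y, y', hy, hy', hu3, hu4, S.cont_sy hu5⟩, ?_⟩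
      exact (S.kap_eq he hy (hlay u (by omega))).mpr hu3
    · intro s s' n hss hs' hcr
      have hex : ∃ y ∈ S.T e g, S.idx e g y = n := by
        rcases hcr with h | h
        · exact S.exists_idx h.2
        · exact S.exists_idx h.2
      obtain ⟨y, hy, hyn⟩ := hex
      subst hyn
      have hls := hlay (s + t) (by omega)
      have hls' := hlay (s' + t) (by omega)
      have hcr' : S.hi (p (s + t)) < y ∧ S.rg e g y < S.lo (p (s' + t)) ∨
          S.hi (p (s' + t)) < y ∧ S.rg e g y < S.lo (p (s + t)) := by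
        rcases hcr with h | h
        · exact Or.inl ⟨(S.kap_lt he hy hls).mp h.1, (S.kap_gt he hy hls').mp h.2⟩
        · exact Or.inr ⟨(S.kap_lt he hy hls').mp h.1, (S.kap_gt he hy hls).mp h.2⟩
      obtain ⟨u, hu1, hu2, hu3, y', hy', hu4, hu5⟩ := cl2 y hy s s' hss hs' hcr'
      refine ⟨u, hu1, hu2, ⟨by omega, y', y, hy', hy, hu4, hu3, S.cont_sy hu5.symm⟩, ?_⟩
      exact (S.kap_eq he hy (hlay (u + t) (by omega))).mpr hu3
  constructor
  · intro hcr
    obtain ⟨τ, h1, h2, h3, y', hy', h4, h5⟩ := cl1 x hx i i' hii hi' hcr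
    have hE : E τ := ⟨by omega, x, y', hx, hy', h3, h4, S.cont_sy h5⟩
    have hk := gs τ hE
    refine ⟨τ, h1, h2, h3, ?_⟩
    have k1 := (S.kap_eq he hx (hlay τ (by omega))).mpr h3
    refine (S.kap_eq he hx (hlay (τ + t) (by omega))).mp ?_
    change κ (τ + t) = _
    rw [← hk]
    exact k1
  · intro hcr
    obtain ⟨τ, h1, h2, h3, y', hy', h4, h5⟩ := cl2 x hx i i' hii hi' hcr
    have hE : E τ := ⟨by omega, y', x, hy', hx, h4, h3, S.cont_sy h5.symm⟩
    have hk := gs τ hE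
    refine ⟨τ, h1, h2, ?_, h3⟩
    have k1 := (S.kap_eq he hx (hlay (τ + t) (by omega))).mpr h3
    refine (S.kap_eq he hx (hlay τ (by omega))).mp ?_
    change κ τ = _
    rw [hk]
    exact k1

theorem nonrep (t : ℕ) (ht : 1 ≤ t) (p : ℕ → V)
    (hinj : ∀ i j, i < 2 * t → j < 2 * t → p i = p j → i = j)
    (hadj : ∀ i, i + 1 < 2 * t → S.mt (p i) (p (i + 1))) :
    ∃ i, i < t ∧ S.col (p i) ≠ S.col (p (i + t)) := by
  by_contra hcon
  push Not at hcon
  -- the minimal layer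
  obtain ⟨s, hs, hmin⟩ : ∃ s, s < t ∧ ∀ i, i < t → S.lam (p s) ≤ S.lam (p i) := by
    have hne : (Finset.range t).Nonempty := ⟨0, Finset.mem_range.mpr (by omega)⟩
    obtain ⟨s, hs, h⟩ := Finset.exists_min_image (Finset.range t) (fun i => S.lam (p i)) hne
    exact ⟨s, Finset.mem_range.mp hs, fun i hi => h i (Finset.mem_range.mpr hi)⟩
  have hlamEq : ∀ i, i < t → S.lam (p i) = S.lam (p (i + t)) := fun i hi =>
    congrArg (fun q => q.1) (hcon i hi)
  have hj : ∀ i, i < 2 * t → S.lam (p s) ≤ S.lam (p i) := by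
    intro i hi
    by_cases h : i < t
    · exact hmin i h
    · have h1 := hmin (i - t) (by omega)
      have h2 := hlamEq (i - t) (by omega)
      rw [show i - t + t = i by omega] at h2
      omega
  have hps : S.ps (p s) = S.ps (p (s + t)) := congrArg (fun q => q.2.1) (hcon s hs)
  have hne : p s ≠ p (s + t) := by
    intro h
    have := hinj s (s + t) (by omega) (by omega) h
    omega
  have hself : ∀ v, S.mt v v := fun v => ⟨S.hle v, S.hle v⟩
  obtain ⟨e, g, z, e', g', z', hO, hz, hO', hz', hcase⟩ :=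
    S.cov (p s) (p (s + t)) (hlamEq s hs) hps hne
  have hzr := S.rg_le e g z hO.1 hz
  have hzr' := S.rg_le e' g' z' hO'.1 hz'
  have sv := S.sync_visits t p hadj hcon (j := S.lam (p s)) hO hj z hz
  have sv' := S.sync_visits t p hadj hcon (j := S.lam (p s)) hO' hj z' hz'
  have hsepAll : ∀ i i', i < 2 * t → i' < 2 * t → S.rg e g z < z' → S.mt (p i) (p i') →
      S.tch (p i) e g z → S.tch (p i') e' g' z' → False := by
    intro i i' hi hi' hlt hm h1 h2
    have := S.sepO (S.lam (p s)) e g z e' g' z' hO hO' hz hz' (p i) (p i') (hj i hi) (hj i' hi')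
      hm h1 h2
    have h3 := this.2.2
    omega
  rcases hcase with ⟨c1, c2, c3⟩ | ⟨c1, c2, c3⟩
  · refine S.end_game t p (fun i => p (i + t)) s hs hzr c2 hzr' ?_ hself ?_ ?_ c1 c3 (t - 1) 0
      (by omega) (by omega) ?_
    · rintro v v' ⟨i, hi, h⟩ ⟨i', hi', h'⟩ hm h1 h2
      rcases h with rfl | rfl <;> rcases h' with rfl | rfl
      · exact hsepAll i i' (by omega) (by omega) c2 hm h1 h2
      · exact hsepAll i (i' + t) (by omega) (by omega) c2 hm h1 h2
      · exact hsepAll (i + t) i' (by omega) (by omega) c2 hm h1 h2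
      · exact hsepAll (i + t) (i' + t) (by omega) (by omega) c2 hm h1 h2
    · intro i j hij hjt hcr
      exact (sv i j hij hjt).1 hcr
    · intro i j hij hjt hcr
      exact (sv' i j hij hjt).2 hcr
    · have := hadj (t - 1) (by omega)
      rw [show t - 1 + 1 = 0 + t by omega] at this
      exact this
  · refine S.end_game t (fun i => p (i + t)) p s hs hzr c2 hzr' ?_ hself ?_ ?_ c1 c3 0 (t - 1)
      (by omega) (by omega) ?_
    · rintro v v' ⟨i, hi, h⟩ ⟨i', hi', h'⟩ hm h1 h2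
      rcases h with rfl | rfl <;> rcases h' with rfl | rfl
      · exact hsepAll (i + t) (i' + t) (by omega) (by omega) c2 hm h1 h2
      · exact hsepAll (i + t) i' (by omega) (by omega) c2 hm h1 h2
      · exact hsepAll i (i' + t) (by omega) (by omega) c2 hm h1 h2
      · exact hsepAll i i' (by omega) (by omega) c2 hm h1 h2
    · intro i j hij hjt hcr
      obtain ⟨τ, h1, h2, h3, h4⟩ := (sv i j hij hjt).2 hcr
      exact ⟨τ, h1, h2, h4, h3⟩
    · intro i j hij hjt hcr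
      obtain ⟨τ, h1, h2, h3, h4⟩ := (sv' i j hij hjt).1 hcr
      exact ⟨τ, h1, h2, h4, h3⟩
    · have := hadj (t - 1) (by omega)
      rw [show t - 1 + 1 = 0 + t by omega] at this
      exact ⟨this.2, this.1⟩

end Sys

end Pool.Agent.FBD
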