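import Pool.Agent.Lib.MP_fbd18f_co.Defs

set_option autoImplicit false

namespace Pool.Agent.FBD

/-! ### Piece GRIDS -/

theorem grids_lt {S : Set ℕ} {x y p : ℕ} (hp : p ∈ S) (h1 : x ≤ p) (h2 : p < y) :
    cnt S x < cnt S y := by
  classical
  unfold cnt
  exact (Nat.count_monotone _ h1).trans_lt (Nat.count_strict_mono hp h2)

theorem grids_next {S : Set ℕ} (n : ℕ) : ∀ {x y : ℕ}, y ≤ x + n → cnt S x < cnt S y →
    ∃ p ∈ S, x ≤ p ∧ p < y ∧ cnt S (p + 1) = cnt S x + 1 := by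
  classical
  induction n with
  | zero =>
    intro x y h h1
    exfalso
    have h2 : cnt S y ≤ cnt S x := by
      unfold cnt
      exact Nat.count_monotone _ (by omega)
    omega
  | succ n ih =>
    intro x y h h1
    have hxy : x < y := by
      by_contra hc
      have h2 : cnt S y ≤ cnt S x := by
        unfold cnt
        exact Nat.count_monotone _ (by omega)
      omega
    by_cases hx : x ∈ S
    · refine ⟨x, hx, le_rfl, hxy, ?_⟩
      unfold cnt
      rw [Nat.count_succ, if_pos hx]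
    · have h2 : cnt S (x + 1) = cnt S x := by
        unfold cnt
        rw [Nat.count_succ, if_neg hx, add_zero]
      obtain ⟨p, hp, h3, h4, h5⟩ := ih (x := x + 1) (y := y) (by omega) (by omega)
      exact ⟨p, hp, by omega, h4, by omega⟩

theorem grids_three {S : Set ℕ} {x y : ℕ} (h : cnt S x + 3 ≤ cnt S y) :
    ∃ p q s, p ∈ S ∧ q ∈ S ∧ s ∈ S ∧ x ≤ p ∧ p < q ∧ q < s ∧ s < y := by
  obtain ⟨p, hp, h1, h2, h3⟩ := grids_next (S := S) y (x := x) (y := y) (by omega) (by omega)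
  obtain ⟨q, hq, h4, h5, h6⟩ := grids_next (S := S) y (x := p + 1) (y := y) (by omega) (by omega)
  obtain ⟨s, hs, h7, h8, _⟩ := grids_next (S := S) y (x := q + 1) (y := y) (by omega) (by omega)
  exact ⟨p, q, s, hp, hq, hs, h1, by omega, by omega, h8⟩

/-- inclusion-minimal hitting subset -/
theorem grids_min {V : Type} (lo hi : V → ℕ) (A : Finset ℕ) (F : V → Prop)
    (hA : ∀ v, F v → ∃ q ∈ A, lo v ≤ q ∧ q ≤ hi v) :
    ∃ T : Finset ℕ, T ⊆ A ∧ (∀ v, F v → ∃ q ∈ T, lo v ≤ q ∧ q ≤ hi v) ∧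
      ∀ q ∈ T, ∃ v, F v ∧ (lo v ≤ q ∧ q ≤ hi v) ∧ ∀ q' ∈ T, lo v ≤ q' → q' ≤ hi v → q' = q := by
  classical
  obtain ⟨T, hT, hmin⟩ := Finset.exists_min_image
    (A.powerset.filter (fun T => ∀ v, F v → ∃ q ∈ T, lo v ≤ q ∧ q ≤ hi v)) Finset.card
    ⟨A, by rw [Finset.mem_filter]; exact ⟨Finset.mem_powerset_self A, hA⟩⟩
  rw [Finset.mem_filter, Finset.mem_powerset] at hT
  refine ⟨T, hT.1, hT.2, fun q hq => ?_⟩
  by_contra hc
  push Not at hc
  have h1 : T.erase q ∈ A.powerset.filter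
      (fun T => ∀ v, F v → ∃ q ∈ T, lo v ≤ q ∧ q ≤ hi v) := by
    rw [Finset.mem_filter, Finset.mem_powerset]
    refine ⟨(Finset.erase_subset _ _).trans hT.1, fun v hv => ?_⟩
    by_cases hvq : lo v ≤ q ∧ q ≤ hi v
    · obtain ⟨q', hq', h2, h3, h4⟩ := hc v hv hvq
      exact ⟨q', Finset.mem_erase.mpr ⟨h4, hq'⟩, h2, h3⟩
    · obtain ⟨q', hq', h2⟩ := hT.2 v hv
      refine ⟨q', Finset.mem_erase.mpr ⟨?_, hq'⟩, h2⟩
      rintro rfl
      exact hvq h2
  have h2 := hmin _ h1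
  have h3 := Finset.card_erase_lt_of_mem hq
  omega

theorem grids {V : Type} [Fintype V] (lo hi : V → ℕ) (hle : ∀ v, lo v ≤ hi v) (lam : V → ℕ)
    (hmon : ∀ x u, lo x ≤ lo u → hi u ≤ hi x → (lo x < lo u ∨ hi u < hi x) → lam x < lam u) :
    ∃ (B : ℕ → Set ℕ) (M : ℕ), Grids lo hi lam B M := by
  classical
  -- bounds
  set M : ℕ := (Finset.univ.sup hi) + 1 with hM
  have hiM : ∀ v, hi v < M := fun v =>
    Nat.lt_succ_of_le (Finset.le_sup (f := hi) (Finset.mem_univ v))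
  set L : ℕ := Finset.univ.sup lam with hL
  have hlamL : ∀ v, lam v ≤ L := fun v => Finset.le_sup (f := lam) (Finset.mem_univ v)
  -- one step
  have hstep : ∀ (n : ℕ) (A : Finset ℕ), ∃ T : Finset ℕ, T ⊆ A ∧
      ((∀ v, lam v + n ≤ L → ∃ q ∈ A, lo v ≤ q ∧ q ≤ hi v) →
        (∀ v, lam v + n ≤ L → ∃ q ∈ T, lo v ≤ q ∧ q ≤ hi v) ∧
        ∀ q ∈ T, ∃ v, lam v + n ≤ L ∧ (lo v ≤ q ∧ q ≤ hi v) ∧
          ∀ q' ∈ T, lo v ≤ q' → q' ≤ hi v → q' = q) := by
    intro n A
    by_cases h : ∀ v, lam v + n ≤ L → ∃ q ∈ A, lo v ≤ q ∧ q ≤ hi v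
    · obtain ⟨T, h1, h2, h3⟩ := grids_min lo hi A (fun v => lam v + n ≤ L) h
      exact ⟨T, h1, fun _ => ⟨h2, h3⟩⟩
    · exact ⟨A, subset_rfl, fun h' => absurd h' h⟩
  choose T hT1 hT2 using hstep
  let A : ℕ → Finset ℕ := fun n => Nat.rec (Finset.range M) (fun n A => T n A) n
  have hA0 : A 0 = Finset.range M := rfl
  have hAs : ∀ n, A (n + 1) = T n (A n) := fun n => rfl
  have hAanti : ∀ m n, m ≤ n → A n ⊆ A m := by
    intro m n h
    induction n, h using Nat.le_induction with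
    | base => exact subset_rfl
    | succ n _ ih => rw [hAs]; exact (hT1 n (A n)).trans ih
  have hAhit : ∀ n v, lam v + n ≤ L + 1 → ∃ q ∈ A n, lo v ≤ q ∧ q ≤ hi v := by
    intro n
    induction n with
    | zero =>
      intro v _
      refine ⟨lo v, ?_, le_rfl, hle v⟩
      rw [hA0, Finset.mem_range]
      exact (hle v).trans_lt (hiM v)
    | succ n ih =>
      intro v hv
      rw [hAs]
      exact (hT2 n (A n) (fun v hv => ih v (by omega))).1 v (by omega)
  have hAmin : ∀ n, ∀ q ∈ A (n + 1), ∃ v, lam v + n ≤ L ∧ (lo v ≤ q ∧ q ≤ hi v) ∧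
      ∀ q' ∈ A (n + 1), lo v ≤ q' → q' ≤ hi v → q' = q := by
    intro n
    rw [hAs]
    exact (hT2 n (A n) (fun v hv => hAhit n v (by omega))).2
  refine ⟨fun j => {y | M ≤ y ∨ y ∈ A (L + 1 - j)}, M, ?_, ?_, hiM, ?_, ?_⟩
  · rintro i j hij y (hy | hy)
    · exact Or.inl hy
    · exact Or.inr (hAanti _ _ (by omega) hy)
  · intro j x hx
    exact Or.inl hx
  · intro v j hj
    obtain ⟨q, hq, h1, h2⟩ := hAhit (L + 1 - j) v (by have := hlamL v; omega)
    exact grids_lt (p := q) (Or.inr hq) h1 (by omega)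
  · intro v j hj
    by_contra hc
    obtain ⟨p, q, s, hp, hq, hs, h1, h2, h3, h4⟩ := grids_three
      (S := {y | M ≤ y ∨ y ∈ A (L + 1 - j)}) (x := lo v) (y := hi v + 1) (by omega)
    have hv := hiM v
    have hp' : p ∈ A (L + 1 - j) := by
      rcases hp with h | h
      · omega
      · exact h
    have hq' : q ∈ A (L + 1 - j) := by
      rcases hq with h | h
      · omega
      · exact h
    have hs' : s ∈ A (L + 1 - j) := by
      rcases hs with h | h
      · omega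
      · exact h
    have hlv := hlamL v
    obtain ⟨n, hn⟩ : ∃ n, L + 1 - j = n + 1 := ⟨L - j, by omega⟩
    rw [hn] at hp' hq' hs'
    obtain ⟨u, hu1, ⟨hu2, hu3⟩, hu4⟩ := hAmin n q hq'
    have hpu : p < lo u := by
      by_contra h
      have := hu4 p hp' (by omega) (by omega)
      omega
    have hsu : hi u < s := by
      by_contra h
      have := hu4 s hs' (by omega) (by omega)
      omega
    have := hmon v u (by omega) (by omega) (Or.inl (by omega))
    omega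

end Pool.Agent.FBD
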