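import Pool.Agent.Lib.MP_fbd18f_co.Defs

set_option autoImplicit false

namespace Pool.Agent.FBD

/-! ### Piece COUNT -/

theorem cnt_mono (S : Set ℕ) {x y : ℕ} (h : x ≤ y) : cnt S x ≤ cnt S y := by
  classical
  exact Nat.count_monotone _ h

theorem cnt_succ_le (S : Set ℕ) (x : ℕ) : cnt S (x + 1) ≤ cnt S x + 1 := by
  classical
  unfold cnt
  rw [Nat.count_succ]
  split_ifs <;> omega

theorem cnt_succ_mem {S : Set ℕ} {x : ℕ} (h : x ∈ S) : cnt S (x + 1) = cnt S x + 1 := by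
  classical
  unfold cnt
  rw [Nat.count_succ, if_pos h]

theorem lt_of_cnt_lt {S : Set ℕ} {x y : ℕ} (h : cnt S x < cnt S y) : x < y := by
  by_contra hc
  exact absurd (cnt_mono S (not_lt.1 hc)) (not_le.2 h)

/-- `S` has at most as many points in `[x,y)` as `S'` -/
theorem cnt_sub {S S' : Set ℕ} (h : S ⊆ S') {x y : ℕ} (hxy : x ≤ y) :
    cnt S y + cnt S' x ≤ cnt S x + cnt S' y := by
  classical
  unfold cnt
  induction y, hxy using Nat.le_induction with
  | base => omega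
  | succ n hn ih =>
    rw [Nat.count_succ, Nat.count_succ]
    by_cases h1 : n ∈ S
    · rw [if_pos h1, if_pos (h h1)]
      omega
    · rw [if_neg h1]
      split_ifs <;> omega

theorem cnt_sh {S : Set ℕ} (h : S.Infinite) (s x : ℕ) : cnt S (sh S s x) = cnt S x + s := by
  classical
  unfold cnt sh
  exact Nat.count_nth_of_infinite (p := fun y => y ∈ S) h _

theorem sh_mem {S : Set ℕ} (h : S.Infinite) (s x : ℕ) : sh S s x ∈ S :=
  Nat.nth_mem_of_infinite (p := fun y => y ∈ S) h _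

theorem lt_sh {S : Set ℕ} (h : S.Infinite) {s : ℕ} (hs : 0 < s) (x : ℕ) : x < sh S s x := by
  apply lt_of_cnt_lt (S := S)
  rw [cnt_sh h]
  omega

theorem cnt_lt_of_mem {S : Set ℕ} {x y p : ℕ} (hp : p ∈ S) (h1 : x ≤ p) (h2 : p < y) :
    cnt S x < cnt S y := by
  have h3 := cnt_mono S h1
  have h4 := cnt_succ_mem hp
  have h5 := cnt_mono S (show p + 1 ≤ y from h2)
  omega

/-- one point of `S` in `[x,y)`, the first one -/
theorem one_of_cnt {S : Set ℕ} {x y : ℕ} (h : cnt S x + 1 ≤ cnt S y) :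
    ∃ p, p ∈ S ∧ x ≤ p ∧ p < y ∧ cnt S p = cnt S x := by
  have hxy : x < y := lt_of_cnt_lt h
  induction y, hxy.le using Nat.le_induction with
  | base => omega
  | succ n hn ih =>
    rcases lt_or_ge (cnt S x) (cnt S n) with h1 | h1
    · obtain ⟨p, hp, h2, h3, h4⟩ := ih h1 (lt_of_cnt_lt h1)
      exact ⟨p, hp, h2, by omega, h4⟩
    · have h2 := cnt_mono S hn
      refine ⟨n, ?_, hn, by omega, by omega⟩
      by_contra hnS
      have h3 : cnt S (n + 1) = cnt S n := by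
        classical
        unfold cnt
        rw [Nat.count_succ, if_neg hnS, add_zero]
      omega

/-- three points of `S` in `[x,y)` -/
theorem three_of_cnt {S : Set ℕ} {x y : ℕ} (h : cnt S x + 3 ≤ cnt S y) :
    ∃ p q s, p ∈ S ∧ q ∈ S ∧ s ∈ S ∧ x ≤ p ∧ p < q ∧ q < s ∧ s < y := by
  obtain ⟨p, hp, hxp, hpy, hcp⟩ := one_of_cnt (S := S) (x := x) (y := y) (by omega)
  have hp1 := cnt_succ_mem hp
  obtain ⟨q, hq, hpq, hqy, hcq⟩ := one_of_cnt (S := S) (x := p + 1) (y := y) (by omega)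
  have hq1 := cnt_succ_mem hq
  obtain ⟨s, hs, hqs, hsy, -⟩ := one_of_cnt (S := S) (x := q + 1) (y := y) (by omega)
  exact ⟨p, q, s, hp, hq, hs, hxp, hpq, hqs, hsy⟩

end Pool.Agent.FBD
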