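import Pool.Agent.Lib.MP_fbd18f_co.Defs
import Pool.Agent.Lib.MP_fbd18f_co.COUNT

set_option autoImplicit false

namespace Pool.Agent.FBD

/-! ### Piece DSETSa -/

theorem dsa_ss_pos (r e : ℕ) : 0 < ss r e := by
  unfold ss; positivity

theorem dsa_RR_step (r e : ℕ) (he : e + 1 < r) : ss r e + RR r (e + 1) = RR r e := by
  unfold ss RR
  have h1 : r - 1 - (e + 1) = r - 2 - e := by omega
  have h2 : r - 1 - e = (r - 2 - e) + 1 := by omega
  rw [h1, h2, pow_succ]
  have h3 : 1 ≤ 2 ^ (r - 2 - e) := Nat.one_le_two_pow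
  omega

theorem dsa_block (b G m : ℕ) (hb : 2 ≤ b) : (G + 1) * m ≤ (G / b + 1) * (b * m) := by
  have h : G + 1 ≤ (G / b + 1) * b := by
    have := Nat.lt_div_mul_add (a := G) (b := b) (by omega)
    nlinarith
  calc (G + 1) * m ≤ ((G / b + 1) * b) * m := Nat.mul_le_mul_right _ h
    _ = (G / b + 1) * (b * m) := by ring

theorem dsa_sh_mono {S : Set ℕ} (h : S.Infinite) (s : ℕ) {x y : ℕ} (hxy : x ≤ y) :
    sh S s x ≤ sh S s y := by
  unfold sh
  exact (Nat.nth_monotone (p := fun y => y ∈ S) h) (Nat.add_le_add_right (cnt_mono S hxy) s)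

theorem dsa_nxt_mono (B : ℕ → Set ℕ) (hinf : ∀ j, (B j).Infinite) (b r e g : ℕ) {x y : ℕ}
    (hxy : x ≤ y) : nxt B b r e g x ≤ nxt B b r e g y :=
  dsa_sh_mono (hinf _) _ hxy

theorem dsa_lt_nxt (B : ℕ → Set ℕ) (hinf : ∀ j, (B j).Infinite) (b r e g x : ℕ) :
    x < nxt B b r e g x :=
  lt_sh (hinf _) (dsa_ss_pos r e) x

theorem dsa_rgF_mono (B : ℕ → Set ℕ) (hinf : ∀ j, (B j).Infinite) (b r n : ℕ) :
    ∀ (e g x y : ℕ), x ≤ y → rgF B b r n e g x ≤ rgF B b r n e g y := by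
  induction n with
  | zero => intro e g x y h; simpa [rgF] using h
  | succ n ih =>
    intro e g x y h
    simp only [rgF]
    exact ih _ _ _ _ (dsa_nxt_mono B hinf b r e g h)

theorem dsa_le_rgF (B : ℕ → Set ℕ) (hinf : ∀ j, (B j).Infinite) (b r n : ℕ) :
    ∀ (e g x : ℕ), x ≤ rgF B b r n e g x := by
  induction n with
  | zero => intro e g x; simp [rgF]
  | succ n ih =>
    intro e g x
    simp only [rgF]
    exact (dsa_lt_nxt B hinf b r e g x).le.trans (ih _ _ _)

theorem dsa_rgn_mono (B : ℕ → Set ℕ) (hinf : ∀ j, (B j).Infinite) (b r e g : ℕ) {x y : ℕ}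
    (h : x ≤ y) : rgn B b r e g x ≤ rgn B b r e g y :=
  dsa_rgF_mono B hinf b r _ e g x y h

/-- the parameters: `B` increasing, infinite; `2 ≤ b` -/
theorem rgn_step (B : ℕ → Set ℕ) (b r e g x : ℕ) (he : e + 1 < r) :
    rgn B b r e g x = rgn B b r (e + 1) (g / b) (nxt B b r e g x) := by
  unfold rgn
  have h : r - 1 - e = (r - 1 - (e + 1)) + 1 := by omega
  rw [h]
  rfl

theorem rgn_last (B : ℕ → Set ℕ) (b r g x : ℕ) (hr : 1 ≤ r) : rgn B b r (r - 1) g x = x := by
  unfold rgn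
  rw [Nat.sub_self]
  rfl

theorem le_rgn (B : ℕ → Set ℕ) (hinf : ∀ j, (B j).Infinite) (b r e g x : ℕ) (he : e < r) :
    x ≤ rgn B b r e g x :=
  dsa_le_rgF B hinf b r _ e g x

theorem dsa_cnt_rgn (B : ℕ → Set ℕ) (hmono : ∀ i j, i ≤ j → B i ⊆ B j)
    (hinf : ∀ j, (B j).Infinite) (b r n : ℕ) (hb : 2 ≤ b) (k : ℕ) :
    ∀ (e g x : ℕ), r - 1 - e = k → e < r → n ≤ (g / b + 1) * b ^ (e + 1) →
    cnt (B n) (rgn B b r e g x) ≤ cnt (B n) x + RR r e := by
  induction k with
  | zero =>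
    intro e g x hk he hn
    have : e = r - 1 := by omega
    subst this
    rw [rgn_last B b r g x (by omega)]
    exact Nat.le_add_right _ _
  | succ k ih =>
    intro e g x hk he hn
    have he1 : e + 1 < r := by omega
    rw [rgn_step B b r e g x he1]
    have h1 : n ≤ (g / b / b + 1) * b ^ (e + 1 + 1) := by
      refine hn.trans ?_
      have := dsa_block b (g / b) (b ^ (e + 1)) hb
      rwa [← pow_succ'] at this
    have h2 := ih (e + 1) (g / b) (nxt B b r e g x) (by omega) he1 h1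
    have h3 : cnt (B ((g / b + 1) * b ^ (e + 1))) (nxt B b r e g x) =
        cnt (B ((g / b + 1) * b ^ (e + 1))) x + ss r e := cnt_sh (hinf _) _ _
    have h4 := cnt_sub (hmono n _ hn) (dsa_lt_nxt B hinf b r e g x).le
    have h5 := dsa_RR_step r e he1
    omega

/-- the region is short in all grids up to the end of the parent block -/
theorem cnt_rgn (B : ℕ → Set ℕ) (hmono : ∀ i j, i ≤ j → B i ⊆ B j) (hinf : ∀ j, (B j).Infinite)
    (b r e g x n : ℕ) (hb : 2 ≤ b) (he : e < r) (hn : n ≤ (g / b + 1) * b ^ (e + 1)) :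
    cnt (B n) (rgn B b r e g x) ≤ cnt (B n) x + RR r e :=
  dsa_cnt_rgn B hmono hinf b r n hb _ e g x rfl he hn

theorem dsa_div (b β e : ℕ) : β / b ^ e / b = β / b ^ (e + 1) := by
  rw [Nat.div_div_eq_div_mul, pow_succ]

theorem dsa_near (B : ℕ → Set ℕ) (hinf : ∀ j, (B j).Infinite)
    (b r β q : ℕ) (e : ℕ) : ∀ x, e < r → x ∈ DS B b r e β q →
    q ≤ x ∧ rgn B b r e (β / b ^ e) x ≤ rgn B b r 0 β q := by
  induction e with
  | zero =>
    intro x _ hx
    simp only [DS, Finset.mem_singleton] at hx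
    subst hx
    simp
  | succ e ih =>
    intro x he hx
    simp only [DS, Finset.mem_union, Finset.mem_image] at hx
    rw [← dsa_div]
    rcases hx with hx | ⟨y, hy, rfl⟩
    · obtain ⟨h1, h2⟩ := ih x (by omega) hx
      refine ⟨h1, ?_⟩
      refine le_trans ?_ h2
      rw [rgn_step B b r e _ x he]
      exact dsa_rgn_mono B hinf b r _ _ (dsa_lt_nxt B hinf b r e _ x).le
    · obtain ⟨h1, h2⟩ := ih y (by omega) hy
      refine ⟨h1.trans (dsa_lt_nxt B hinf b r e _ y).le, ?_⟩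
      rw [← rgn_step B b r e _ y he]
      exact h2

/-- all objects of a mark and their regions lie within `RR r 0` to the right of the mark -/
theorem DS_near (B : ℕ → Set ℕ) (hmono : ∀ i j, i ≤ j → B i ⊆ B j) (hinf : ∀ j, (B j).Infinite)
    (b r e β q x n : ℕ) (hb : 2 ≤ b) (he : e < r) (hx : x ∈ DS B b r e β q) (hn : n ≤ β + 1) :
    q ≤ x ∧ cnt (B n) (rgn B b r e (β / b ^ e) x) ≤ cnt (B n) q + RR r 0 := by
  obtain ⟨h1, h2⟩ := dsa_near B hinf b r β q e x he hx
  refine ⟨h1, (cnt_mono _ h2).trans ?_⟩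
  refine cnt_rgn B hmono hinf b r 0 β q n hb (by omega) (hn.trans ?_)
  have := dsa_block b β 1 hb
  simpa using this

theorem DS_mono (B : ℕ → Set ℕ) (b r e e' β q : ℕ) (h : e ≤ e') :
    DS B b r e β q ⊆ DS B b r e' β q := by
  induction e', h using Nat.le_induction with
  | base => exact fun _ h => h
  | succ n _ ih =>
    intro x hx
    simp only [DS, Finset.mem_union]
    exact Or.inl (ih hx)

theorem self_mem_DS (B : ℕ → Set ℕ) (b r e β q : ℕ) : q ∈ DS B b r e β q :=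
  DS_mono B b r 0 e β q (Nat.zero_le _) (by simp [DS])

theorem dsa_anc (B : ℕ → Set ℕ) (hinf : ∀ j, (B j).Infinite)
    (b r β q y : ℕ) (hy : y ∈ DS B b r (r - 1) β q) (k : ℕ) :
    ∀ e, r - 1 - e = k → e < r →
    ∃ z ∈ DS B b r e β q, z ≤ y ∧ y ≤ rgn B b r e (β / b ^ e) z := by
  induction k with
  | zero =>
    intro e hk he
    have : e = r - 1 := by omega
    subst this
    exact ⟨y, hy, le_refl _, by rw [rgn_last B b r _ y (by omega)]⟩
  | succ k ih =>
    intro e hk he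
    have he1 : e + 1 < r := by omega
    obtain ⟨z, hz, h1, h2⟩ := ih (e + 1) (by omega) he1
    simp only [DS, Finset.mem_union, Finset.mem_image] at hz
    rw [← dsa_div] at h2
    rcases hz with hz | ⟨z', hz', rfl⟩
    · refine ⟨z, hz, h1, h2.trans ?_⟩
      rw [rgn_step B b r e _ z he1]
      exact dsa_rgn_mono B hinf b r _ _ (dsa_lt_nxt B hinf b r e _ z).le
    · refine ⟨z', hz', (dsa_lt_nxt B hinf b r e _ z').le.trans h1, ?_⟩
      rw [rgn_step B b r e _ z' he1]
      exact h2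

/-- every last-type location lies in the region of an object of type `e` -/
theorem DS_anc (B : ℕ → Set ℕ) (hmono : ∀ i j, i ≤ j → B i ⊆ B j) (hinf : ∀ j, (B j).Infinite)
    (b r e β q y : ℕ) (hb : 2 ≤ b) (he : e < r) (hy : y ∈ DS B b r (r - 1) β q) :
    ∃ z ∈ DS B b r e β q, z ≤ y ∧ y ≤ rgn B b r e (β / b ^ e) z :=
  dsa_anc B hinf b r β q y hy _ e rfl he

end Pool.Agent.FBD
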