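import Pool.Agent.Lib.MP_fbd18f_co.Defs
import Pool.Agent.Lib.MP_fbd18f_co.COUNT
import Pool.Agent.Lib.MP_fbd18f_co.DSETSa

set_option autoImplicit false

/-!
# Separation of the objects (piece DSETSb)

`sep_same`: two objects of the same type of one mark are separated by at least five points of the grid at
the end of their block; induction on the type.  `sep_diff`: objects of different marks.
-/

namespace Pool.Agent.FBD

lemma ss_eq (r e : ℕ) : ss r e = RR r (e + 1) + 6 := by
  unfold ss RR
  rw [show r - 1 - (e + 1) = r - 2 - e by omega]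
  have : 1 ≤ 2 ^ (r - 2 - e) := Nat.one_le_two_pow
  omega

lemma RR_le (r e : ℕ) : RR r e ≤ RR r 0 := by
  unfold RR
  have : 2 ^ (r - 1 - e) ≤ 2 ^ (r - 1 - 0) := Nat.pow_le_pow_right (by norm_num) (by omega)
  omega

lemma block_le (b g e : ℕ) (hb : 2 ≤ b) : (g + 1) * b ^ e ≤ (g / b + 1) * b ^ (e + 1) := by
  have h1 : g < b * (g / b + 1) := Nat.lt_mul_div_succ g (by omega)
  calc (g + 1) * b ^ e ≤ (b * (g / b + 1)) * b ^ e := Nat.mul_le_mul_right _ h1
    _ = (g / b + 1) * b ^ (e + 1) := by ring

/-- GS': separation of the objects of the same type of one mark -/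
theorem sep_same (B : ℕ → Set ℕ) (hmono : ∀ i j, i ≤ j → B i ⊆ B j) (hinf : ∀ j, (B j).Infinite)
    (b r e β q x x' : ℕ) (hb : 2 ≤ b) (he : e < r) (hx : x ∈ DS B b r e β q)
    (hx' : x' ∈ DS B b r e β q) (hlt : x < x') :
    cnt (B ((β / b ^ e + 1) * b ^ e)) (rgn B b r e (β / b ^ e) x + 1) + 5 ≤
      cnt (B ((β / b ^ e + 1) * b ^ e)) x' := by
  induction e generalizing x x' with
  | zero =>
    simp only [DS, Finset.mem_singleton] at hx hx'
    omega
  | succ e ih =>
    have hdiv : β / b ^ (e + 1) = β / b ^ e / b := by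
      rw [pow_succ, Nat.div_div_eq_div_mul]
    rw [hdiv]
    set g := β / b ^ e with hg
    set N := (g / b + 1) * b ^ (e + 1) with hN
    have hNN : (g + 1) * b ^ e ≤ N := block_le b g e hb
    have hs : nxt B b r e g = fun y => sh (B N) (ss r e) y := by
      funext y; rw [nxt]
    have hK : ∀ y, cnt (B N) (rgn B b r (e + 1) (g / b) y + 1) + 5 ≤ cnt (B N) (nxt B b r e g y) := by
      intro y
      have h1 := cnt_rgn B hmono hinf b r (e + 1) (g / b) y N hb he (block_le b (g / b) (e + 1) hb)
      have h2 : cnt (B N) (nxt B b r e g y) = cnt (B N) y + ss r e := by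
        rw [hs]; exact cnt_sh (hinf N) _ _
      have h3 := cnt_succ_le (B N) (rgn B b r (e + 1) (g / b) y)
      rw [ss_eq] at h2
      omega
    have hlast : ∀ y, nxt B b r e g y ≤ rgn B b r e g y := by
      intro y
      rw [rgn_step B b r e g y he]
      exact le_rgn B hinf b r (e + 1) (g / b) _ he
    have hfst : ∀ y, rgn B b r (e + 1) (g / b) y + 1 ≤ rgn B b r e g y := by
      intro y
      have h1 : cnt (B N) (rgn B b r (e + 1) (g / b) y + 1) < cnt (B N) (nxt B b r e g y) := by
        have := hK y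
        omega
      have h2 := lt_of_cnt_lt h1
      have h3 := hlast y
      omega
    have hyn : ∀ y, y < nxt B b r e g y := by
      intro y
      rw [hs]
      refine lt_sh (hinf N) ?_ y
      rw [ss_eq]; omega
    have IH : ∀ y y', y ∈ DS B b r e β q → y' ∈ DS B b r e β q → y < y' →
        cnt (B N) (rgn B b r e g y + 1) + 5 ≤ cnt (B N) y' := by
      intro y y' hy hy' hyy
      have h1 := ih y y' (by omega) hy hy' hyy
      have h2 : cnt (B ((g + 1) * b ^ e)) (rgn B b r e g y + 1) < cnt (B ((g + 1) * b ^ e)) y' := by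
        omega
      have h3 := cnt_sub (hmono _ _ hNN) (lt_of_cnt_lt h2).le
      omega
    have IH' : ∀ y y', y ∈ DS B b r e β q → y' ∈ DS B b r e β q → y < y' →
        rgn B b r e g y + 1 < y' := by
      intro y y' hy hy' hyy
      have h1 := IH y y' hy hy' hyy
      exact lt_of_cnt_lt (S := B N) (by omega)
    rw [DS, Finset.mem_union, Finset.mem_image, ← hg] at hx hx'
    rcases hx with hx | ⟨z, hz, rfl⟩ <;> rcases hx' with hx' | ⟨z', hz', rfl⟩
    · have h1 := IH x x' hx hx' hlt
      have h2 : cnt (B N) (rgn B b r (e + 1) (g / b) x + 1) ≤ cnt (B N) (rgn B b r e g x + 1) :=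
        cnt_mono _ (by have := hfst x; omega)
      omega
    · rcases lt_trichotomy x z' with h | h | h
      · have h1 := IH x z' hx hz' h
        have h2 : cnt (B N) (rgn B b r (e + 1) (g / b) x + 1) ≤ cnt (B N) (rgn B b r e g x + 1) :=
          cnt_mono _ (by have := hfst x; omega)
        have h3 := cnt_mono (B N) (hyn z').le
        omega
      · subst h
        exact hK x
      · have h1 := IH' z' x hz' hx h
        have h2 := hlast z'
        omega
    · rw [← rgn_step B b r e g z he]
      rcases lt_trichotomy z x' with h | h | h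
      · exact IH z x' hz hx' h
      · subst h
        have := hyn z
        omega
      · have := hyn z
        omega
    · rw [← rgn_step B b r e g z he]
      rcases lt_trichotomy z z' with h | h | h
      · have h1 := IH z z' hz hz' h
        have h3 := cnt_mono (B N) (hyn z').le
        omega
      · subst h
        omega
      · have h1 := IH' z' z hz' hz h
        have h2 := hlast z'
        have h3 := hyn z
        omega

/-- GS: separation of the objects of different marks -/
theorem sep_diff (B : ℕ → Set ℕ) (hmono : ∀ i j, i ≤ j → B i ⊆ B j) (hinf : ∀ j, (B j).Infinite)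
    (b r M : ℕ) (Nm : ℕ → Finset ℕ) (hN : Marks B b r M Nm) (hb : 2 ≤ b)
    (e β q x e' β' q' x' : ℕ) (he : e < r) (he' : e' < r) (hq : q ∈ Nm β) (hq' : q' ∈ Nm β')
    (hne : ¬ (β = β' ∧ q = q')) (hββ : β ≤ β') (hpar : β' < (β / b ^ (e + 1) + 1) * b ^ (e + 1))
    (hx : x ∈ DS B b r e β q) (hx' : x' ∈ DS B b r e' β' q') :
    cnt (B (β' + 1)) (rgn B b r e (β / b ^ e) x + 1) + 5 ≤ cnt (B (β' + 1)) x' ∨
    cnt (B (β' + 1)) (rgn B b r e' (β' / b ^ e') x' + 1) + 5 ≤ cnt (B (β' + 1)) x := by
  have n1 := DS_near B hmono hinf b r e' β' q' x' (β' + 1) hb he' hx' le_rfl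
  have m1 := cnt_mono (B (β' + 1)) n1.1
  have s1 := cnt_succ_le (B (β' + 1)) (rgn B b r e (β / b ^ e) x)
  have s2 := cnt_succ_le (B (β' + 1)) (rgn B b r e' (β' / b ^ e') x')
  have hDL : DL r = RR r 0 + 10 := rfl
  rcases Nat.lt_or_ge β β' with h | h
  · have hdiv : β / b ^ (e + 1) = β / b ^ e / b := by
      rw [pow_succ, Nat.div_div_eq_div_mul]
    have c1 := cnt_rgn B hmono hinf b r e (β / b ^ e) x (β' + 1) hb he (by rw [← hdiv]; exact hpar)
    have hR := RR_le r e
    rcases hN.m2 β β' h q hq x (DS_mono B b r e (r - 1) β q (by omega) hx) q' hq' with h1 | h1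
    · right; omega
    · left; omega
  · obtain rfl : β = β' := le_antisymm hββ h
    have n2 := DS_near B hmono hinf b r e β q x (β + 1) hb he hx le_rfl
    have m2 := cnt_mono (B (β + 1)) n2.1
    rcases lt_trichotomy q q' with h1 | h1 | h1
    · have := hN.m1 β q hq q' hq' h1
      left; omega
    · exact absurd ⟨rfl, h1⟩ hne
    · have := hN.m1 β q' hq' q hq h1
      right; omega

end Pool.Agent.FBD
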