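import Pool.Agent.Lib.MP_fbd18f_co.Defs
import Pool.Agent.Lib.MP_fbd18f_co.COUNT
import Pool.Agent.Lib.MP_fbd18f_co.DSETSa
import Pool.Agent.Lib.MP_fbd18f_co.DSETSb

set_option autoImplicit false

namespace Pool.Agent.FBD

/-! ### Piece TT -/

/-- two meeting intervals with at most two points of `S` each cannot reach over a gap with five points -/
theorem no_touch {S : Set ℕ} {l h l' h' y x' : ℕ} (h1 : cnt S (h + 1) ≤ cnt S l + 2)
    (h2 : cnt S (h' + 1) ≤ cnt S l' + 2) (hm : Mt l h l' h') (t1 : l ≤ y) (t2 : x' ≤ h')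
    (hs : cnt S (y + 1) + 5 ≤ cnt S x') : False := by
  have a1 : cnt S x' ≤ cnt S (h' + 1) := cnt_mono S (by omega)
  have a2 : cnt S l' ≤ cnt S (h + 1) := cnt_mono S (by have := hm.2; omega)
  have a3 : cnt S l ≤ cnt S (y + 1) := cnt_mono S (by omega)
  omega

theorem tt_mem (B : ℕ → Set ℕ) (b r : ℕ) (Nm : ℕ → Finset ℕ) (e g x : ℕ) (hb : 2 ≤ b) :
    x ∈ TT B b r Nm e g ↔ ∃ β q, β / b ^ e = g ∧ q ∈ Nm β ∧ x ∈ DS B b r e β q := by
  have hpos : 0 < b ^ e := Nat.pow_pos (by omega)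
  have key : ∀ β, β ∈ Finset.Ico (g * b ^ e) ((g + 1) * b ^ e) ↔ β / b ^ e = g := by
    intro β
    rw [Finset.mem_Ico]
    constructor
    · rintro ⟨h1, h2⟩
      have h3 : g ≤ β / b ^ e := (Nat.le_div_iff_mul_le hpos).2 h1
      have h4 : β / b ^ e < g + 1 := (Nat.div_lt_iff_lt_mul hpos).2 h2
      omega
    · rintro rfl
      refine ⟨Nat.div_mul_le_self _ _, ?_⟩
      rw [mul_comm]; exact Nat.lt_mul_div_succ _ hpos
  unfold TT
  simp only [Finset.mem_biUnion, key]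
  constructor
  · rintro ⟨β, h1, q, h2, h3⟩; exact ⟨β, q, h1, h2, h3⟩
  · rintro ⟨β, q, h1, h2, h3⟩; exact ⟨β, h1, q, h2, h3⟩

/-- the parent condition of `sep_diff` -/
theorem tt_par {b e β j : ℕ} (hb : 2 ≤ b) (h : β / b ^ (e + 1) = j / b ^ (e + 1)) {β' : ℕ}
    (hβ : β' ≤ j) : β' < (β / b ^ (e + 1) + 1) * b ^ (e + 1) := by
  have hpos : 0 < b ^ (e + 1) := Nat.pow_pos (by omega)
  rw [h, mul_comm]
  exact lt_of_le_of_lt hβ (Nat.lt_mul_div_succ _ hpos)

theorem tt_div (b e β : ℕ) : β / b ^ e / b = β / b ^ (e + 1) := by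
  rw [Nat.div_div_eq_div_mul, pow_succ]

theorem tt_lt5 {S : Set ℕ} {y x : ℕ} (h : cnt S (y + 1) + 5 ≤ cnt S x) : y < x := by
  have : y + 1 < x := lt_of_cnt_lt (S := S) (by omega)
  omega

/-- regions of distinct objects of the same type with the same parent block are disjoint -/
theorem tt_disj (B : ℕ → Set ℕ) (hmono : ∀ i j, i ≤ j → B i ⊆ B j) (hinf : ∀ j, (B j).Infinite)
    (b r M : ℕ) (Nm : ℕ → Finset ℕ) (hN : Marks B b r M Nm) (hb : 2 ≤ b)
    {e g g' x x' : ℕ} (he : e < r) (hgg : g / b = g' / b) (hx : x ∈ TT B b r Nm e g)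
    (hx' : x' ∈ TT B b r Nm e g') (hne : ¬ (g = g' ∧ x = x')) :
    rgn B b r e g x < x' ∨ rgn B b r e g' x' < x := by
  obtain ⟨β, q, hβ, hq, hxq⟩ := (tt_mem B b r Nm e g x hb).1 hx
  obtain ⟨β', q', hβ', hq', hxq'⟩ := (tt_mem B b r Nm e g' x' hb).1 hx'
  subst hβ; subst hβ'
  rw [tt_div, tt_div] at hgg
  by_cases hsame : β = β' ∧ q = q'
  · obtain ⟨rfl, rfl⟩ := hsame
    have hxx : x ≠ x' := fun h => hne ⟨rfl, h⟩
    rcases lt_or_gt_of_ne hxx with h | h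
    · exact Or.inl (tt_lt5 (sep_same B hmono hinf b r e β q x x' hb he hxq hxq' h))
    · exact Or.inr (tt_lt5 (sep_same B hmono hinf b r e β q x' x hb he hxq' hxq h))
  · rcases le_total β β' with hle | hle
    · rcases sep_diff B hmono hinf b r M Nm hN hb e β q x e β' q' x' he he hq hq' hsame hle
        (tt_par hb hgg le_rfl) hxq hxq' with h | h
      · exact Or.inl (tt_lt5 h)
      · exact Or.inr (tt_lt5 h)
    · rcases sep_diff B hmono hinf b r M Nm hN hb e β' q' x' e β q x he he hq' hq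
        (fun h => hsame ⟨h.1.symm, h.2.symm⟩) hle
        (tt_par hb hgg.symm le_rfl) hxq' hxq with h | h
      · exact Or.inr (tt_lt5 h)
      · exact Or.inl (tt_lt5 h)

/-- `no_touch` in both directions -/
theorem tt_no {V : Type} {lo hi lam : V → ℕ} {B : ℕ → Set ℕ} {M : ℕ}
    (hG : Grids lo hi lam B M) {n x y x' y' : ℕ} {v v' : V} (hv : n ≤ lam v) (hv' : n ≤ lam v')
    (hm : Mt (lo v) (hi v) (lo v') (hi v')) (t : Mt (lo v) (hi v) x y)
    (t' : Mt (lo v') (hi v') x' y')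
    (h : cnt (B n) (y + 1) + 5 ≤ cnt (B n) x' ∨ cnt (B n) (y' + 1) + 5 ≤ cnt (B n) x) : False := by
  rcases h with h | h
  · exact no_touch (hG.two v n hv) (hG.two v' n hv') hm t.1 t'.2 h
  · exact no_touch (hG.two v' n hv') (hG.two v n hv) ⟨hm.2, hm.1⟩ t'.1 t.2 h

theorem tt_inf {V : Type} {lo hi lam : V → ℕ} {B : ℕ → Set ℕ} {M : ℕ}
    (hG : Grids lo hi lam B M) (j : ℕ) : (B j).Infinite :=
  (Set.Ici_infinite M).mono (fun x hx => hG.pad j x hx)

theorem tt_sepT {V : Type} (lo hi lam : V → ℕ) (B : ℕ → Set ℕ) (M : ℕ)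
    (hG : Grids lo hi lam B M) (b r : ℕ) (hb : 2 ≤ b) (Nm : ℕ → Finset ℕ)
    (hN : Marks B b r M Nm) {e g : ℕ} (he : e < r) {x x' : ℕ} (hx : x ∈ TT B b r Nm e g)
    (hx' : x' ∈ TT B b r Nm e g) {v v' : V} (hv : (g + 1) * b ^ e ≤ lam v)
    (hv' : (g + 1) * b ^ e ≤ lam v') (hm : Mt (lo v) (hi v) (lo v') (hi v'))
    (t : Mt (lo v) (hi v) x (rgn B b r e g x)) (t' : Mt (lo v') (hi v') x' (rgn B b r e g x')) :
    x = x' := by
  have hmono := hG.mono
  have hinf := tt_inf hG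
  have hpos : 0 < b ^ e := Nat.pow_pos (by omega)
  by_contra hxx
  obtain ⟨β, q, hβ, hq, hxq⟩ := (tt_mem B b r Nm e g x hb).1 hx
  obtain ⟨β', q', hβ', hq', hxq'⟩ := (tt_mem B b r Nm e g x' hb).1 hx'
  subst hβ
  have hlt : β < (β / b ^ e + 1) * b ^ e := by
    rw [mul_comm]; exact Nat.lt_mul_div_succ _ hpos
  have hlt' : β' < (β / b ^ e + 1) * b ^ e := by
    rw [← hβ', mul_comm]; exact Nat.lt_mul_div_succ _ hpos
  by_cases hsame : β = β' ∧ q = q'
  · obtain ⟨rfl, rfl⟩ := hsame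
    rcases lt_or_gt_of_ne hxx with h | h
    · exact tt_no hG hv hv' hm t t'
        (Or.inl (sep_same B hmono hinf b r e β q x x' hb he hxq hxq' h))
    · exact tt_no hG hv hv' hm t t'
        (Or.inr (sep_same B hmono hinf b r e β q x' x hb he hxq' hxq h))
  · have hgg : β / b ^ (e + 1) = β' / b ^ (e + 1) := by
      rw [← tt_div, ← tt_div, hβ']
    rw [← hβ'] at t'
    have hn : ∀ γ, γ < (β / b ^ e + 1) * b ^ e → γ + 1 ≤ lam v ∧ γ + 1 ≤ lam v' :=
      fun γ hγ => ⟨by omega, by omega⟩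
    rcases le_total β β' with hle | hle
    · exact tt_no hG (hn β' hlt').1 (hn β' hlt').2 hm t t'
        (sep_diff B hmono hinf b r M Nm hN hb e β q x e β' q' x' he he hq hq' hsame hle
          (tt_par hb hgg le_rfl) hxq hxq')
    · exact tt_no hG (hn β hlt).1 (hn β hlt).2 hm t t'
        (Or.symm (sep_diff B hmono hinf b r M Nm hN hb e β' q' x' e β q x he he hq' hq
          (fun h => hsame ⟨h.1.symm, h.2.symm⟩) hle (tt_par hb hgg.symm le_rfl) hxq' hxq))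

/-- the block of `β` revealed by layer `j` is unique -/
theorem tt_uniq {b j β e e' : ℕ} (h : β / b ^ e < j / b ^ e)
    (h' : β / b ^ (e' + 1) = j / b ^ (e' + 1)) : ¬ e' < e := by
  intro hlt
  obtain ⟨k, rfl⟩ : ∃ k, e = e' + 1 + k := ⟨e - (e' + 1), by omega⟩
  rw [pow_add, ← Nat.div_div_eq_div_mul, ← Nat.div_div_eq_div_mul, h'] at h
  exact lt_irrefl _ h

theorem tt_sepO {V : Type} (lo hi lam : V → ℕ) (B : ℕ → Set ℕ) (M : ℕ)
    (hG : Grids lo hi lam B M) (b r : ℕ) (hb : 2 ≤ b) (Nm : ℕ → Finset ℕ)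
    (hN : Marks B b r M Nm) {j e g x e' g' x' : ℕ}
    (hO : e < r ∧ g < j / b ^ e ∧ g / b = j / b ^ (e + 1))
    (hO' : e' < r ∧ g' < j / b ^ e' ∧ g' / b = j / b ^ (e' + 1))
    (hx : x ∈ TT B b r Nm e g) (hx' : x' ∈ TT B b r Nm e' g') {v v' : V}
    (hv : j ≤ lam v) (hv' : j ≤ lam v') (hm : Mt (lo v) (hi v) (lo v') (hi v'))
    (t : Mt (lo v) (hi v) x (rgn B b r e g x))
    (t' : Mt (lo v') (hi v') x' (rgn B b r e' g' x')) :
    e = e' ∧ g = g' ∧ x = x' := by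
  have hmono := hG.mono
  have hinf := tt_inf hG
  obtain ⟨β, q, hβ, hq, hxq⟩ := (tt_mem B b r Nm e g x hb).1 hx
  obtain ⟨β', q', hβ', hq', hxq'⟩ := (tt_mem B b r Nm e' g' x' hb).1 hx'
  have hlt : ∀ {f h γ : ℕ}, γ / b ^ f = h → h < j / b ^ f → γ < j ∧ (h + 1) * b ^ f ≤ j := by
    intro f h γ h1 h2
    have hpos : 0 < b ^ f := Nat.pow_pos (by omega)
    have h3 : (h + 1) * b ^ f ≤ j := (Nat.le_div_iff_mul_le hpos).1 h2
    refine ⟨lt_of_lt_of_le ?_ h3, h3⟩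
    rw [← h1, mul_comm]; exact Nat.lt_mul_div_succ _ hpos
  have h1 := hlt hβ hO.2.1
  have h1' := hlt hβ' hO'.2.1
  have h2 : β / b ^ (e + 1) = j / b ^ (e + 1) := by rw [← tt_div, hβ]; exact hO.2.2
  have h2' : β' / b ^ (e' + 1) = j / b ^ (e' + 1) := by rw [← tt_div, hβ']; exact hO'.2.2
  by_cases hsame : β = β' ∧ q = q'
  · obtain ⟨rfl, rfl⟩ := hsame
    have hee : e = e' := by
      have a1 := tt_uniq (by rw [hβ]; exact hO.2.1 : β / b ^ e < j / b ^ e) h2'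
      have a2 := tt_uniq (by rw [hβ']; exact hO'.2.1 : β / b ^ e' < j / b ^ e') h2
      omega
    subst hee
    have hg : g = g' := by rw [← hβ, ← hβ']
    subst hg
    exact ⟨rfl, rfl, tt_sepT lo hi lam B M hG b r hb Nm hN hO.1 hx hx'
      (h1.2.trans hv) (h1.2.trans hv') hm t t'⟩
  · exfalso
    rw [← hβ] at t
    rw [← hβ'] at t'
    rcases le_total β β' with hle | hle
    · exact tt_no hG (n := β' + 1) (by have := h1'.1; omega) (by have := h1'.1; omega) hm t t'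
        (sep_diff B hmono hinf b r M Nm hN hb e β q x e' β' q' x' hO.1 hO'.1 hq hq' hsame hle
          (tt_par hb h2 h1'.1.le) hxq hxq')
    · exact tt_no hG (n := β + 1) (by have := h1.1; omega) (by have := h1.1; omega) hm t t'
        (Or.symm (sep_diff B hmono hinf b r M Nm hN hb e' β' q' x' e β q x hO'.1 hO.1 hq' hq
          (fun h => hsame ⟨h.1.symm, h.2.symm⟩) hle (tt_par hb h2' h1.1.le) hxq' hxq))

end Pool.Agent.FBD
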