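import Pool.Agent.Lib.MP_fbd18f_co.COUNT
import Pool.Agent.Lib.MP_fbd18f_co.DSETSa
import Pool.Agent.Lib.MP_fbd18f_co.TT

set_option autoImplicit false

namespace Pool.Agent.FBD

/-! ### Piece COV -/

set_option linter.unusedVariables false in
/-- for `j < b ^ r` every `β < j` lies in a block revealed by layer `j` -/
theorem exists_block (b r j β : ℕ) (hb : 2 ≤ b) (hj : j < b ^ r) (hβ : β < j) :
    ∃ e, e < r ∧ β / b ^ e < j / b ^ e ∧ β / b ^ e / b = j / b ^ (e + 1) := by
  classical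
  have hex : ∃ e, β / b ^ e = j / b ^ e := by
    refine ⟨r, ?_⟩
    rw [Nat.div_eq_of_lt hj, Nat.div_eq_of_lt (hβ.trans hj)]
  set e' := Nat.find hex with he'
  have hfind : β / b ^ e' = j / b ^ e' := Nat.find_spec hex
  have hpos : e' ≠ 0 := by
    intro h0
    rw [h0] at hfind
    simp only [pow_zero, Nat.div_one] at hfind
    omega
  obtain ⟨e, hee⟩ := Nat.exists_eq_succ_of_ne_zero hpos
  have hle : e' ≤ r := by
    apply Nat.find_le
    rw [Nat.div_eq_of_lt hj, Nat.div_eq_of_lt (hβ.trans hj)]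
  refine ⟨e, by omega, ?_, ?_⟩
  · have hne : β / b ^ e ≠ j / b ^ e := Nat.find_min hex (by omega : e < e')
    have hle2 : β / b ^ e ≤ j / b ^ e := Nat.div_le_div_right hβ.le
    omega
  · rw [Nat.div_div_eq_div_mul, ← pow_succ]
    rw [hee] at hfind
    exact hfind

theorem RR_le_zero (r e : ℕ) : RR r e ≤ RR r 0 := by
  unfold RR
  have h : 2 ^ (r - 1 - e) ≤ 2 ^ (r - 1 - 0) := Nat.pow_le_pow_right (by norm_num) (by omega)
  omega

theorem four_DL_le (r : ℕ) (hr : 1 ≤ r) : 4 * DL r + 4 * RR r 0 + 2 ≤ 2 ^ (r + 6) := by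
  obtain ⟨s, rfl⟩ := Nat.exists_eq_add_of_le hr
  unfold DL RR
  have h1 : 1 + s - 1 - 0 = s := by omega
  rw [h1]
  have h2 : 2 ^ (1 + s + 6) = 128 * 2 ^ s := by
    rw [show 1 + s + 6 = 7 + s by ring, pow_add]; norm_num
  rw [h2]
  have h3 : 1 ≤ 2 ^ s := Nat.one_le_two_pow
  omega

/-- the key step: an object close to the grid position `cnt v + 2 + s` -/
theorem cov_step {V : Type} (lo hi lam : V → ℕ) (B : ℕ → Set ℕ) (M : ℕ)
    (hG : Grids lo hi lam B M) (b r : ℕ) (hb : 2 ≤ b) (Nm : ℕ → Finset ℕ)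
    (hN : Marks B b r M Nm) (i : ℕ) (hi1 : 1 ≤ i) (hi2 : i < b ^ r) (x : ℕ) (hx : x ∈ B i)
    (hxM : x < M) :
    ∃ e g z, (e < r ∧ g < i / b ^ e ∧ g / b = i / b ^ (e + 1)) ∧ z ∈ TT B b r Nm e g ∧
      cnt (B i) x < cnt (B i) z + (DL r + RR r 0) ∧
      cnt (B i) (rgn B b r e g z) < cnt (B i) x + (DL r + RR r 0) := by
  have hinf : ∀ j, (B j).Infinite := by
    intro j
    refine Set.infinite_of_not_bddAbove ?_
    rintro ⟨u, hu⟩
    have h1 := hu (hG.pad j (max M (u + 1)) (le_max_left _ _))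
    have h2 := le_max_right M (u + 1)
    omega
  have hii : i - 1 + 1 = i := by omega
  obtain ⟨β₀, hβ₀, q₀, hq₀, y, hy, h1, h2⟩ := hN.m3 (i - 1) x (by rw [hii]; exact hx) hxM
  rw [hii] at h1 h2
  obtain ⟨e, he, hlt, heq⟩ := exists_block b r i β₀ hb hi2 (by omega)
  obtain ⟨z, hz, hzy, hyz⟩ := DS_anc B hG.mono hinf b r e β₀ q₀ y hb he hy
  have hn : i ≤ (β₀ / b ^ e / b + 1) * b ^ (e + 1) := by
    rw [heq]
    have hpos : 0 < b ^ (e + 1) := pow_pos (by omega) _
    have h3 := Nat.lt_mul_div_succ i hpos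
    have h4 : (i / b ^ (e + 1) + 1) * b ^ (e + 1) = b ^ (e + 1) * (i / b ^ (e + 1) + 1) :=
      Nat.mul_comm _ _
    rw [h4]
    exact h3.le
  have hc := cnt_rgn B hG.mono hinf b r e (β₀ / b ^ e) z i hb he hn
  have hR := RR_le_zero r e
  have h3 := cnt_mono (B i) hzy
  have h4 := cnt_mono (B i) hyz
  refine ⟨e, β₀ / b ^ e, z, ⟨he, hlt, heq⟩, ?_, by omega, by omega⟩
  exact (tt_mem B b r Nm e _ z hb).2 ⟨β₀, q₀, rfl, hq₀, hz⟩

open Classical in
theorem tt_cov {V : Type} [Fintype V] (lo hi lam : V → ℕ) (hle : ∀ v, lo v ≤ hi v)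
    (B : ℕ → Set ℕ) (M : ℕ) (hG : Grids lo hi lam B M) (b r : ℕ) (hb : 2 ≤ b) (hr : 1 ≤ r)
    (hlam1 : ∀ v, 1 ≤ lam v) (hlam2 : ∀ v, lam v < b ^ r)
    (h2 : ∀ j p, ((Finset.univ : Finset V).filter
        (fun v => lam v = j ∧ lo v ≤ p ∧ p ≤ hi v)).card ≤ 2)
    (Nm : ℕ → Finset ℕ) (hN : Marks B b r M Nm) :
    ∃ ps : V → ℕ, (∀ v, ps v < 2 ^ (r + 7)) ∧
      ∀ v v', lam v = lam v' → ps v = ps v' → v ≠ v' →
      (∃ e g z e' g' z',
        (e < r ∧ g < lam v / b ^ e ∧ g / b = lam v / b ^ (e + 1)) ∧ z ∈ TT B b r Nm e g ∧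
        (e' < r ∧ g' < lam v / b ^ e' ∧ g' / b = lam v / b ^ (e' + 1)) ∧ z' ∈ TT B b r Nm e' g' ∧
        ((hi v < z ∧ rgn B b r e g z < z' ∧ rgn B b r e' g' z' < lo v') ∨
         (hi v' < z ∧ rgn B b r e g z < z' ∧ rgn B b r e' g' z' < lo v))) := by
  have hinf : ∀ j, (B j).Infinite := by
    intro j
    refine Set.infinite_of_not_bddAbove ?_
    rintro ⟨u, hu⟩
    have h1 := hu (hG.pad j (max M (u + 1)) (le_max_left _ _))
    have h2 := le_max_right M (u + 1)
    omega
  -- the two vertices with the same position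
  let F : ℕ → ℕ → Finset V := fun i n =>
    Finset.univ.filter (fun v => lam v = i ∧ cnt (B i) (lo v) = n)
  have hF : ∀ i n, (F i n).card ≤ 2 := by
    intro i n
    let p : ℕ := sh (B i) n 0
    have hp0 : cnt (B i) p = n := by
      have := cnt_sh (hinf i) n 0
      have h0 : cnt (B i) 0 = 0 := by simp [cnt]
      show cnt (B i) (sh (B i) n 0) = n
      rw [this, h0]; omega
    have hpm : p ∈ B i := sh_mem (hinf i) n 0
    refine le_trans (Finset.card_le_card ?_) (h2 i p)
    intro v hv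
    simp only [F, Finset.mem_filter, Finset.mem_univ, true_and] at hv ⊢
    obtain ⟨hv1, hv2⟩ := hv
    refine ⟨hv1, ?_, ?_⟩
    · by_contra hcon
      have h3 : p < lo v := by omega
      have h4 := cnt_lt_of_mem hpm (le_refl p) h3
      omega
    · by_contra hcon
      have h3 : hi v + 1 ≤ p := by omega
      have h4 := cnt_mono (B i) h3
      have h5 := hG.hit v i (by omega)
      omega
  let lab : V → ℕ := fun v =>
    if h : (F (lam v) (cnt (B (lam v)) (lo v))).Nonempty then (if v = h.choose then 0 else 1) else 0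
  have hlab1 : ∀ v, lab v ≤ 1 := by
    intro v
    simp only [lab]
    split_ifs <;> omega
  have hlab2 : ∀ v v', lam v = lam v' → cnt (B (lam v)) (lo v) = cnt (B (lam v')) (lo v') →
      lab v = lab v' → v = v' := by
    intro v v' h1 h3 h4
    have hv : v ∈ F (lam v) (cnt (B (lam v)) (lo v)) := by simp [F]
    have hv' : v' ∈ F (lam v) (cnt (B (lam v)) (lo v)) := by
      simp only [F, Finset.mem_filter, Finset.mem_univ, true_and]
      refine ⟨h1.symm, ?_⟩
      rw [h3, h1]
    have hne : (F (lam v) (cnt (B (lam v)) (lo v))).Nonempty := ⟨v, hv⟩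
    have hne' : (F (lam v') (cnt (B (lam v')) (lo v'))).Nonempty := ⟨v', by simp [F]⟩
    have hch : hne'.choose = hne.choose := by
      have hFF : F (lam v') (cnt (B (lam v')) (lo v')) = F (lam v) (cnt (B (lam v)) (lo v)) := by
        rw [← h3, ← h1]
      congr 1
      funext w
      rw [hFF]
    simp only [lab, dif_pos hne, dif_pos hne'] at h4
    rw [hch] at h4
    by_contra hvv
    by_cases c1 : v = hne.choose
    · by_cases c2 : v' = hne.choose
      · exact hvv (c1.trans c2.symm)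
      · rw [if_pos c1, if_neg c2] at h4
        omega
    · by_cases c2 : v' = hne.choose
      · rw [if_neg c1, if_pos c2] at h4
        omega
      · have hsub : ({hne.choose, v, v'} : Finset V) ⊆ F (lam v) (cnt (B (lam v)) (lo v)) := by
          intro w hw
          simp only [Finset.mem_insert, Finset.mem_singleton] at hw
          rcases hw with rfl | rfl | rfl
          · exact hne.choose_spec
          · exact hv
          · exact hv'
        have hcard : ({hne.choose, v, v'} : Finset V).card = 3 := by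
          rw [Finset.card_eq_three]
          exact ⟨_, _, _, Ne.symm c1, Ne.symm c2, hvv, rfl⟩
        have h5 := Finset.card_le_card hsub
        have h6 := hF (lam v) (cnt (B (lam v)) (lo v))
        omega
  set Q : ℕ := 2 ^ (r + 6) with hQ
  have hQpos : 0 < Q := by positivity
  -- the main case
  have key : ∀ v v', lam v = lam v' → cnt (B (lam v)) (lo v) + Q ≤ cnt (B (lam v)) (lo v') →
      (∃ e g z e' g' z',
        (e < r ∧ g < lam v / b ^ e ∧ g / b = lam v / b ^ (e + 1)) ∧ z ∈ TT B b r Nm e g ∧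
        (e' < r ∧ g' < lam v / b ^ e' ∧ g' / b = lam v / b ^ (e' + 1)) ∧
        z' ∈ TT B b r Nm e' g' ∧
        (hi v < z ∧ rgn B b r e g z < z' ∧ rgn B b r e' g' z' < lo v')) := by
    intro v v' h1 h3
    set i := lam v with hi_def
    have hQ4 := four_DL_le r hr
    rw [← hQ] at hQ4
    set D := DL r with hD
    set R := RR r 0 with hR
    have hx1 := cnt_sh (hinf i) (2 + D + R) (lo v)
    have hx2 := sh_mem (hinf i) (2 + D + R) (lo v)
    set x := sh (B i) (2 + D + R) (lo v) with hxdef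
    have hx3 := cnt_sh (hinf i) (2 + 3 * D + 3 * R) (lo v)
    have hx4 := sh_mem (hinf i) (2 + 3 * D + 3 * R) (lo v)
    set x' := sh (B i) (2 + 3 * D + 3 * R) (lo v) with hxdef'
    have hDpos : 10 ≤ D := by
      rw [hD]; unfold DL; omega
    have hxv : x < lo v' := lt_of_cnt_lt (S := B i) (by omega)
    have hxv' : x' < lo v' := lt_of_cnt_lt (S := B i) (by omega)
    have hM := hG.hiM v'
    have hlv := hle v'
    obtain ⟨e, g, z, hO, hz, hz1, hz2⟩ := cov_step lo hi lam B M hG b r hb Nm hN i (hlam1 v)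
      (hlam2 v) x hx2 (by omega)
    obtain ⟨e', g', z', hO', hz', hz1', hz2'⟩ := cov_step lo hi lam B M hG b r hb Nm hN i (hlam1 v)
      (hlam2 v) x' hx4 (by omega)
    have htwo := hG.two v i (le_of_eq hi_def)
    refine ⟨e, g, z, e', g', z', hO, hz, hO', hz', ?_, ?_, ?_⟩
    · have h5 : hi v + 1 < z := lt_of_cnt_lt (S := B i) (by omega)
      omega
    · exact lt_of_cnt_lt (S := B i) (by omega)
    · exact lt_of_cnt_lt (S := B i) (by omega)
  refine ⟨fun v => cnt (B (lam v)) (lo v) % Q + Q * lab v, ?_, ?_⟩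
  · intro v
    have h3 := Nat.mod_lt (cnt (B (lam v)) (lo v)) hQpos
    have h4 := hlab1 v
    have h5 : 2 ^ (r + 7) = 2 * Q := by rw [hQ]; ring
    show cnt (B (lam v)) (lo v) % Q + Q * lab v < 2 ^ (r + 7)
    rw [h5]
    have h6 : Q * lab v ≤ Q * 1 := Nat.mul_le_mul_left _ h4
    omega
  · intro v v' h1 hps hne
    have hps' : cnt (B (lam v)) (lo v) % Q + Q * lab v =
        cnt (B (lam v')) (lo v') % Q + Q * lab v' := hps
    have hmod : cnt (B (lam v)) (lo v) % Q = cnt (B (lam v')) (lo v') % Q := by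
      have h3 := congrArg (fun t => t % Q) hps'
      simpa [Nat.add_mul_mod_self_left, Nat.mod_mod] using h3
    have hlabeq : lab v = lab v' := by
      rw [hmod] at hps'
      have h3 : Q * lab v = Q * lab v' := by omega
      exact Nat.eq_of_mul_eq_mul_left hQpos h3
    rw [← h1] at hmod
    rcases lt_trichotomy (cnt (B (lam v)) (lo v)) (cnt (B (lam v)) (lo v')) with hlt | heq | hgt
    · have h4 : cnt (B (lam v)) (lo v) + Q ≤ cnt (B (lam v)) (lo v') := by
        have h5 : Q ∣ cnt (B (lam v)) (lo v') - cnt (B (lam v)) (lo v) :=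
          (Nat.modEq_iff_dvd' hlt.le).1 hmod
        have h6 := Nat.le_of_dvd (by omega) h5
        omega
      obtain ⟨e, g, z, e', g', z', a1, a2, a3, a4, a5⟩ := key v v' h1 h4
      exact ⟨e, g, z, e', g', z', a1, a2, a3, a4, Or.inl a5⟩
    · exact absurd (hlab2 v v' h1 (by rw [heq, h1]) hlabeq) hne
    · have h4 : cnt (B (lam v')) (lo v') + Q ≤ cnt (B (lam v')) (lo v) := by
        rw [← h1]
        have h5 : Q ∣ cnt (B (lam v)) (lo v) - cnt (B (lam v)) (lo v') :=
          (Nat.modEq_iff_dvd' hgt.le).1 hmod.symm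
        have h6 := Nat.le_of_dvd (by omega) h5
        omega
      obtain ⟨e, g, z, e', g', z', a1, a2, a3, a4, a5⟩ := key v' v h1.symm h4
      rw [← h1] at a1 a3
      exact ⟨e, g, z, e', g', z', a1, a2, a3, a4, Or.inr a5⟩

end Pool.Agent.FBD
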