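import Pool.Agent.Lib.MP_fbd18f_co.Defs

set_option autoImplicit false

namespace Pool.Agent.FBD

namespace MarksAux

theorem cnt_mono' (S : Set ℕ) {x y : ℕ} (h : x ≤ y) : cnt S x ≤ cnt S y := by
  classical
  unfold cnt
  exact Nat.count_monotone _ h

theorem self_mem (B : ℕ → Set ℕ) (b r e β q : ℕ) : q ∈ DS B b r e β q := by
  classical
  induction e with
  | zero => simp [DS]
  | succ e ih =>
    rw [DS]
    exact Finset.mem_union_left _ ih

open Classical in
theorem step (c : ℕ → ℕ) (hc : Monotone c) (A : Finset ℕ) (Old : Set ℕ) (D : ℕ) (hD : 0 < D) :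
    ∃ s : Finset ℕ, s ⊆ A ∧ (∀ q ∈ s, ∀ q' ∈ s, q < q' → c q + D ≤ c q') ∧
      (∀ y ∈ Old, ∀ q ∈ s, c q + D ≤ c y ∨ c y + D ≤ c q) ∧
      (∀ x ∈ A, ∃ y, (y ∈ s ∨ y ∈ Old) ∧ c x < c y + D ∧ c y < c x + D) := by
  let P : Finset ℕ → Prop := fun s => (∀ q ∈ s, ∀ q' ∈ s, q < q' → c q + D ≤ c q') ∧
      (∀ y ∈ Old, ∀ q ∈ s, c q + D ≤ c y ∨ c y + D ≤ c q)
  have hne : (A.powerset.filter P).Nonempty := ⟨∅, by simp [P]⟩
  obtain ⟨s, hs, hmax⟩ := Finset.exists_max_image (A.powerset.filter P) Finset.card hne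
  rw [Finset.mem_filter, Finset.mem_powerset] at hs
  refine ⟨s, hs.1, hs.2.1, hs.2.2, ?_⟩
  intro x hx
  by_cases hxs : x ∈ s
  · exact ⟨x, Or.inl hxs, by omega, by omega⟩
  · by_contra hno
    push Not at hno
    have hno' : ∀ y, (y ∈ s ∨ y ∈ Old) → c y + D ≤ c x ∨ c x + D ≤ c y := by
      intro y hy
      by_cases h1 : c x < c y + D
      · exact Or.inr (hno y hy h1)
      · exact Or.inl (not_lt.1 h1)
    have hP : P (insert x s) := by
      refine ⟨?_, ?_⟩
      · intro q hq q' hq' hlt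
        rw [Finset.mem_insert] at hq hq'
        rcases hq with rfl | hq
        · rcases hq' with rfl | hq'
          · omega
          · rcases hno' q' (Or.inl hq') with h | h
            · have := hc hlt.le
              omega
            · exact h
        · rcases hq' with rfl | hq'
          · rcases hno' q (Or.inl hq) with h | h
            · exact h
            · have := hc hlt.le
              omega
          · exact hs.2.1 q hq q' hq' hlt
      · intro y hy q hq
        rw [Finset.mem_insert] at hq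
        rcases hq with rfl | hq
        · rcases hno' y (Or.inr hy) with h | h
          · exact Or.inr h
          · exact Or.inl h
        · exact hs.2.2 y hy q hq
    have hmem : insert x s ∈ A.powerset.filter P := by
      rw [Finset.mem_filter, Finset.mem_powerset]
      exact ⟨Finset.insert_subset hx hs.1, hP⟩
    have := hmax _ hmem
    rw [Finset.card_insert_of_notMem hxs] at this
    omega

theorem DL_pos (r : ℕ) : 0 < DL r := by
  unfold DL
  omega

/-- older locations -/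
def Old (B : ℕ → Set ℕ) (b r : ℕ) (f : ℕ → Finset ℕ) (β : ℕ) : Set ℕ :=
  {y | ∃ β₀, β₀ < β ∧ ∃ q₀ ∈ f β₀, y ∈ DS B b r (r - 1) β₀ q₀}

open Classical in
/-- one choice -/
noncomputable def F (B : ℕ → Set ℕ) (b r M : ℕ) (f : ℕ → Finset ℕ) (β : ℕ) : Finset ℕ :=
  Classical.choose (step (cnt (B (β + 1))) (fun _ _ h => cnt_mono' _ h)
    ((Finset.range M).filter (fun x => x ∈ B (β + 1))) (Old B b r f β) (DL r) (DL_pos r))

/-- the marks -/
noncomputable def N (B : ℕ → Set ℕ) (b r M : ℕ) (β : ℕ) : Finset ℕ :=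
  F B b r M (fun β' => if _h : β' < β then N B b r M β' else ∅) β
termination_by β

theorem Old_congr (B : ℕ → Set ℕ) (b r : ℕ) {f f' : ℕ → Finset ℕ} {β : ℕ}
    (h : ∀ β' < β, f β' = f' β') : Old B b r f β = Old B b r f' β := by
  ext y
  constructor
  · rintro ⟨β₀, hβ, q₀, hq, hy⟩
    exact ⟨β₀, hβ, q₀, by rw [← h β₀ hβ]; exact hq, hy⟩
  · rintro ⟨β₀, hβ, q₀, hq, hy⟩
    exact ⟨β₀, hβ, q₀, by rw [h β₀ hβ]; exact hq, hy⟩

open Classical in
theorem N_spec (B : ℕ → Set ℕ) (b r M β : ℕ) :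
    (∀ q ∈ N B b r M β, ∀ q' ∈ N B b r M β, q < q' →
      cnt (B (β + 1)) q + DL r ≤ cnt (B (β + 1)) q') ∧
    (∀ y ∈ Old B b r (N B b r M) β, ∀ q ∈ N B b r M β,
      cnt (B (β + 1)) q + DL r ≤ cnt (B (β + 1)) y ∨
        cnt (B (β + 1)) y + DL r ≤ cnt (B (β + 1)) q) ∧
    (∀ x ∈ (Finset.range M).filter (fun x => x ∈ B (β + 1)),
      ∃ y, (y ∈ N B b r M β ∨ y ∈ Old B b r (N B b r M) β) ∧
        cnt (B (β + 1)) x < cnt (B (β + 1)) y + DL r ∧
        cnt (B (β + 1)) y < cnt (B (β + 1)) x + DL r) := by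
  have hO : Old B b r (N B b r M) β
      = Old B b r (fun β' => if _h : β' < β then N B b r M β' else ∅) β := by
    apply Old_congr
    intro β' h
    rw [dif_pos h]
  have hN : N B b r M β = F B b r M (fun β' => if _h : β' < β then N B b r M β' else ∅) β := by
    rw [N]
  rw [hO, hN]
  exact (Classical.choose_spec (step (cnt (B (β + 1))) (fun _ _ h => cnt_mono' _ h)
    ((Finset.range M).filter (fun x => x ∈ B (β + 1)))
    (Old B b r (fun β' => if _h : β' < β then N B b r M β' else ∅) β) (DL r) (DL_pos r))).2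

end MarksAux

open MarksAux in
theorem marks_exist (B : ℕ → Set ℕ) (b r M : ℕ) : ∃ Nm : ℕ → Finset ℕ, Marks B b r M Nm := by
  classical
  refine ⟨N B b r M, ?_, ?_, ?_⟩
  · intro β q hq q' hq' hlt
    exact (N_spec B b r M β).1 q hq q' hq' hlt
  · intro β₀ β hβ q₀ hq₀ y hy q hq
    exact (N_spec B b r M β).2.1 y ⟨β₀, hβ, q₀, hq₀, hy⟩ q hq
  · intro β x hx hxM
    obtain ⟨y, hy, h1, h2⟩ := (N_spec B b r M β).2.2 x (by
      rw [Finset.mem_filter, Finset.mem_range]
      exact ⟨hxM, hx⟩)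
    rcases hy with hy | ⟨β₀, hβ, q₀, hq₀, hy⟩
    · exact ⟨β, le_rfl, y, hy, y, self_mem B b r (r - 1) β y, h1, h2⟩
    · exact ⟨β₀, hβ.le, q₀, hq₀, y, hy, h1, h2⟩

end Pool.Agent.FBD
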