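import Pool.Agent.Lib.MP_fbd18f_co.Defs
import Pool.Agent.Lib.MP_fbd18f_co.COUNT
import Pool.Agent.Lib.MP_fbd18f_co.MARKS
import Pool.Agent.Lib.MP_fbd18f_co.DSETSa
import Pool.Agent.Lib.MP_fbd18f_co.TT
import Pool.Agent.Lib.MP_fbd18f_co.COV

set_option autoImplicit false

namespace Pool.Agent.FBD

theorem Grids.inf {V : Type} {lo hi lam : V → ℕ} {B : ℕ → Set ℕ} {M : ℕ}
    (hG : Grids lo hi lam B M) (j : ℕ) : (B j).Infinite :=
  Set.Infinite.mono (fun x hx => hG.pad j x hx) (Set.Ici_infinite M)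

theorem lt_nxt (B : ℕ → Set ℕ) (hinf : ∀ j, (B j).Infinite) (b r e g x : ℕ) :
    x < nxt B b r e g x := by
  unfold nxt
  apply lt_sh (hinf _)
  unfold ss
  positivity

theorem nxt_le_rgn (B : ℕ → Set ℕ) (hinf : ∀ j, (B j).Infinite) (b r e g x : ℕ)
    (he : e + 1 < r) : nxt B b r e g x ≤ rgn B b r e g x := by
  rw [rgn_step B b r e g x he]
  exact le_rgn B hinf b r (e + 1) (g / b) _ he

theorem tt_ch1 (B : ℕ → Set ℕ) (b r : ℕ) (Nm : ℕ → Finset ℕ) (hb : 2 ≤ b) {e g x : ℕ}
    (hx : x ∈ TT B b r Nm e g) : x ∈ TT B b r Nm (e + 1) (g / b) := by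
  rw [tt_mem B b r Nm _ _ _ hb] at hx ⊢
  obtain ⟨β, q, h1, h2, h3⟩ := hx
  refine ⟨β, q, ?_, h2, DS_mono B b r e (e + 1) β q (Nat.le_succ e) h3⟩
  rw [pow_succ, ← Nat.div_div_eq_div_mul, h1]

theorem tt_ch2 (B : ℕ → Set ℕ) (b r : ℕ) (Nm : ℕ → Finset ℕ) (hb : 2 ≤ b) {e g x : ℕ}
    (hx : x ∈ TT B b r Nm e g) : nxt B b r e g x ∈ TT B b r Nm (e + 1) (g / b) := by
  classical
  rw [tt_mem B b r Nm _ _ _ hb] at hx ⊢
  obtain ⟨β, q, h1, h2, h3⟩ := hx
  refine ⟨β, q, ?_, h2, ?_⟩
  · rw [pow_succ, ← Nat.div_div_eq_div_mul, h1]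
  · rw [DS, Finset.mem_union]
    right
    rw [Finset.mem_image]
    exact ⟨x, h3, by rw [h1]⟩

theorem sysx_par (B : ℕ → Set ℕ) (b r : ℕ) (Nm : ℕ → Finset ℕ) (hb : 2 ≤ b) {e G y : ℕ}
    (hy : y ∈ TT B b r Nm (e + 1) G) :
    ∃ g x, g / b = G ∧ x ∈ TT B b r Nm e g ∧ (y = x ∨ y = nxt B b r e g x) := by
  classical
  rw [tt_mem B b r Nm _ _ _ hb] at hy
  obtain ⟨β, q, h1, h2, h3⟩ := hy
  have hG : β / b ^ e / b = G := by
    rw [Nat.div_div_eq_div_mul, ← pow_succ, h1]
  rw [DS, Finset.mem_union, Finset.mem_image] at h3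
  rcases h3 with h3 | ⟨x, h3, h4⟩
  · exact ⟨β / b ^ e, y, hG, (tt_mem B b r Nm _ _ _ hb).2 ⟨β, q, rfl, h2, h3⟩, Or.inl rfl⟩
  · exact ⟨β / b ^ e, x, hG, (tt_mem B b r Nm _ _ _ hb).2 ⟨β, q, rfl, h2, h3⟩, Or.inr h4.symm⟩

open Classical in
theorem exists_sys {V : Type} [Fintype V] (lo hi lam : V → ℕ) (hle : ∀ v, lo v ≤ hi v)
    (B : ℕ → Set ℕ) (M : ℕ) (hG : Grids lo hi lam B M) (b r : ℕ) (hb : 2 ≤ b) (hr : 1 ≤ r)
    (hlam1 : ∀ v, 1 ≤ lam v) (hlam2 : ∀ v, lam v < b ^ r)
    (h2 : ∀ j p, ((Finset.univ : Finset V).filter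
        (fun v => lam v = j ∧ lo v ≤ p ∧ p ≤ hi v)).card ≤ 2) :
    ∃ S : Sys V, S.lo = lo ∧ S.hi = hi ∧ S.lam = lam ∧ S.b = b ∧ S.r = r ∧
      ∀ v, S.ps v < 2 ^ (r + 7) := by
  obtain ⟨Nm, hN⟩ := marks_exist B b r M
  obtain ⟨ps, hps, hcov⟩ := tt_cov lo hi lam hle B M hG b r hb hr hlam1 hlam2 h2 Nm hN
  have hinf := hG.inf
  have hmono := hG.mono
  refine ⟨{ lo := lo, hi := hi, lam := lam, b := b, r := r, T := TT B b r Nm,
            rg := rgn B b r, nx := nxt B b r, ps := ps, hle := hle, hb := hb, hr := hr,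
            hlam := hlam2
            rg_le := fun e g x he _ => le_rgn B hinf b r e g x he
            sepT := fun e g he x hx x' hx' v v' hv hv' hm t t' =>
              tt_sepT lo hi lam B M hG b r hb Nm hN he hx hx' hv hv' hm t t'
            ordT := ?_
            ch1 := fun e g _ x hx => tt_ch1 B b r Nm hb hx
            ch2 := fun e g _ x hx => tt_ch2 B b r Nm hb hx
            ch3 := fun e g _ x _ => lt_nxt B hinf b r e g x
            ch4 := fun e g he x _ => (rgn_step B b r e g x he).ge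
            ch5 := ?_
            par := fun e G _ y hy => sysx_par B b r Nm hb hy
            un1 := ?_
            un2 := ?_
            un3 := ?_
            sepO := ?_
            cov := hcov }, rfl, rfl, rfl, rfl, rfl, hps⟩
  · intro e g he x hx x' hx' hlt
    rcases tt_disj B hmono hinf b r M Nm hN hb he rfl hx hx' (by
      rintro ⟨_, h⟩; omega) with h | h
    · exact h
    · have := le_rgn B hinf b r e g x' he
      omega
  · intro e g he x hx y hy hlt
    obtain ⟨g', y0, hg', hy0, h | h⟩ := sysx_par B b r Nm hb hy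
    · subst h
      rcases tt_disj B hmono hinf b r M Nm hN hb (show e < r by omega) hg'.symm hx hy0 (by
        rintro ⟨_, h⟩; omega) with h | h
      · have := nxt_le_rgn B hinf b r e g x he
        omega
      · have := le_rgn B hinf b r e g' y (by omega)
        omega
    · by_cases hgx : g = g' ∧ x = y0
      · obtain ⟨rfl, rfl⟩ := hgx
        exact h.ge
      · rcases tt_disj B hmono hinf b r M Nm hN hb (show e < r by omega) hg'.symm hx hy0 hgx
          with k | k
        · have k1 := nxt_le_rgn B hinf b r e g x he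
          have k2 := lt_nxt B hinf b r e g' y0
          omega
        · have k1 := nxt_le_rgn B hinf b r e g' y0 he
          omega
  · intro e g g' he hgg x hx x' hx' heq
    by_cases hgx : g = g' ∧ x = x'
    · have := lt_nxt B hinf b r e g x
      omega
    · rcases tt_disj B hmono hinf b r M Nm hN hb (show e < r by omega) hgg hx hx' hgx
        with k | k
      · have k1 := nxt_le_rgn B hinf b r e g x he
        omega
      · have k1 := le_rgn B hinf b r e g' x' (by omega)
        have k2 := lt_nxt B hinf b r e g x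
        omega
  · intro e g g' he hgg x hx hx'
    by_contra hne
    rcases tt_disj B hmono hinf b r M Nm hN hb (show e < r by omega) hgg hx hx' (by
      rintro ⟨h, _⟩; exact hne h) with k | k
    · have k1 := le_rgn B hinf b r e g x (by omega)
      omega
    · have k1 := le_rgn B hinf b r e g' x (by omega)
      omega
  · intro e g g' he hgg x hx x' hx' heq
    by_contra hne
    rcases tt_disj B hmono hinf b r M Nm hN hb (show e < r by omega) hgg hx hx' (by
      rintro ⟨_, h⟩; exact hne h) with k | k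
    · have k1 := nxt_le_rgn B hinf b r e g x he
      have k2 := lt_nxt B hinf b r e g' x'
      omega
    · have k1 := nxt_le_rgn B hinf b r e g' x' he
      have k2 := lt_nxt B hinf b r e g x
      omega
  · intro j e g x e' g' x' hO hO' hx hx' v v' hv hv' hm t t'
    exact tt_sepO lo hi lam B M hG b r hb Nm hN hO hO' hx hx' hv hv' hm t t'

end Pool.Agent.FBD
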