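import Pool.Agent.Lib.MP_fbd18f_co.LAYERS
import Pool.Agent.Lib.MP_fbd18f_co.GRIDS
import Pool.Agent.Lib.MP_fbd18f_co.SYSX
import Pool.Agent.Lib.MP_fbd18f_co.COUNTING
import Pool.Agent.Lib.MP_fbd18f_co.FINAL

set_option autoImplicit false

namespace Pool.Agent.FBD

open Classical in
/-- combinatorial core: intervals of multiplicity at most `w`, `w < 2 ^ (m * m)` -/
theorem core {V : Type} [Fintype V] (lo hi : V → ℕ) (hle : ∀ v, lo v ≤ hi v) (w m : ℕ)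
    (hm : 1 ≤ m) (hwm : w < 2 ^ (m * m))
    (hw : ∀ p, ((Finset.univ : Finset V).filter (fun v => lo v ≤ p ∧ p ≤ hi v)).card ≤ w) :
    ∃ c : V → Fin ((w + 1) * 2 ^ (11 * m + 15)),
      ∀ (k : ℕ) (p : ℕ → V), 1 ≤ k →
        (∀ i j, i < 2 * k → j < 2 * k → p i = p j → i = j) →
        (∀ i, i + 1 < 2 * k → Mt (lo (p i)) (hi (p i)) (lo (p (i + 1))) (hi (p (i + 1)))) →
        ∃ i, i < k ∧ c (p i) ≠ c (p (i + k)) := by
  obtain ⟨lam, hl1, hl2, hl3⟩ := layers lo hi hle w hw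
  obtain ⟨B, M, hG⟩ := grids lo hi hle lam hl2
  have hb2 : 2 ≤ 2 ^ m := by
    calc 2 = 2 ^ 1 := by norm_num
      _ ≤ 2 ^ m := Nat.pow_le_pow_right (by norm_num) hm
  have hlt : ∀ v, lam v < (2 ^ m) ^ m := by
    intro v
    rw [← pow_mul]
    exact lt_of_le_of_lt (hl1 v).2 hwm
  obtain ⟨S, hS1, hS2, hS3, hS4, hS5, hS6⟩ := exists_sys lo hi lam hle B M hG (2 ^ m) m hb2 hm
    (fun v => (hl1 v).1) hlt hl3
  have hwS : ∀ v, S.lam v ≤ w := by
    intro v; rw [hS3]; exact (hl1 v).2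
  obtain ⟨c, hc⟩ := S.col_count w (2 ^ (m + 7)) hwS hS6
  have hbound : (w + 1) * 2 ^ (m + 7) * (1 + S.r * S.b * KK S.b S.r) ≤
      (w + 1) * 2 ^ (11 * m + 15) := by
    rw [hS4, hS5]
    have h1 : KK (2 ^ m) m ≤ 128 ^ (m + 1) * 2 ^ m := KK_le _ _ (by omega)
    have h2 : (128 : ℕ) ^ (m + 1) = 2 ^ (7 * m + 7) := by
      rw [show (128 : ℕ) = 2 ^ 7 by norm_num, ← pow_mul, Nat.mul_add]
    have h3 : m ≤ 2 ^ m := le_of_lt Nat.lt_two_pow_self
    have h4 : m * 2 ^ m * KK (2 ^ m) m ≤ 2 ^ m * 2 ^ m * (2 ^ (7 * m + 7) * 2 ^ m) := by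
      rw [← h2]
      exact Nat.mul_le_mul (Nat.mul_le_mul_right _ h3) h1
    have h5 : 2 ^ m * 2 ^ m * (2 ^ (7 * m + 7) * 2 ^ m) = 2 ^ (10 * m + 7) := by
      rw [← pow_add, ← pow_add, ← pow_add]
      congr 1
      ring
    have h6 : 1 + m * 2 ^ m * KK (2 ^ m) m ≤ 2 ^ (10 * m + 8) := by
      have : 1 ≤ 2 ^ (10 * m + 7) := Nat.one_le_two_pow
      have h7 : 2 ^ (10 * m + 8) = 2 ^ (10 * m + 7) + 2 ^ (10 * m + 7) := by
        rw [pow_succ]; ring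
      omega
    calc (w + 1) * 2 ^ (m + 7) * (1 + m * 2 ^ m * KK (2 ^ m) m)
        ≤ (w + 1) * 2 ^ (m + 7) * 2 ^ (10 * m + 8) := Nat.mul_le_mul_left _ h6
      _ = (w + 1) * 2 ^ (11 * m + 15) := by
          rw [mul_assoc, ← pow_add]
          congr 2
          ring
  refine ⟨fun v => Fin.castLE hbound (c v), ?_⟩
  intro k p hk hinj hadj
  obtain ⟨i, hi, hne⟩ := S.nonrep k hk p hinj (by
    intro i hi
    have := hadj i hi
    unfold Sys.mt
    rw [hS1, hS2]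
    exact this)
  refine ⟨i, hi, ?_⟩
  intro h
  apply hne
  apply hc
  exact Fin.castLE_injective hbound h

/-- path decompositions give intervals -/
theorem intervals_of_decomp {V : Type} [Fintype V] (G : SimpleGraph V)
    (B : ℕ → Finset V) (h2 : ∀ v, ∃ i, v ∈ B i)
    (h3 : ∀ u v, G.Adj u v → ∃ i, u ∈ B i ∧ v ∈ B i)
    (h4 : ∀ v i j k, i ≤ j → j ≤ k → v ∈ B i → v ∈ B k → v ∈ B j) :
    ∃ lo hi : V → ℕ, (∀ v, lo v ≤ hi v) ∧ (∀ v p, lo v ≤ p → p ≤ hi v → v ∈ B p) ∧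
      ∀ u v, G.Adj u v → Mt (lo u) (hi u) (lo v) (hi v) := by
  classical
  choose f hf using h2
  have hg : ∀ q : V × V, ∃ i, G.Adj q.1 q.2 → q.1 ∈ B i ∧ q.2 ∈ B i := by
    intro q
    by_cases h : G.Adj q.1 q.2
    · obtain ⟨i, hi⟩ := h3 q.1 q.2 h
      exact ⟨i, fun _ => hi⟩
    · exact ⟨0, fun h' => absurd h' h⟩
  choose g hg using hg
  let M0 : ℕ := (Finset.univ.sup f) + (Finset.univ.sup g)
  have hfM : ∀ v, f v ≤ M0 := fun v =>
    le_trans (Finset.le_sup (f := f) (Finset.mem_univ v)) (Nat.le_add_right _ _)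
  have hgM : ∀ q, g q ≤ M0 := fun q =>
    le_trans (Finset.le_sup (f := g) (Finset.mem_univ q)) (Nat.le_add_left _ _)
  have hex : ∀ v, ∃ i, v ∈ B i := fun v => ⟨f v, hf v⟩
  refine ⟨fun v => Nat.find (hex v), fun v => Nat.findGreatest (fun i => v ∈ B i) M0, ?_, ?_, ?_⟩
  · intro v
    apply le_trans (Nat.find_min' (hex v) (hf v))
    exact Nat.le_findGreatest (hfM v) (hf v)
  · intro v p hp1 hp2
    apply h4 v (Nat.find (hex v)) p (Nat.findGreatest (fun i => v ∈ B i) M0) hp1 hp2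
    · exact Nat.find_spec (hex v)
    · exact Nat.findGreatest_spec (P := fun i => v ∈ B i) (hfM v) (hf v)
  · intro u v huv
    have h := hg (u, v) huv
    have hM := hgM (u, v)
    constructor
    · exact le_trans (Nat.find_min' (hex u) h.1) (Nat.le_findGreatest hM h.2)
    · exact le_trans (Nat.find_min' (hex v) h.2) (Nat.le_findGreatest hM h.1)

theorem numerics (θ : ℕ) (hθ : 1 ≤ θ) :
    ∃ m : ℕ, 1 ≤ m ∧ θ + 1 < 2 ^ (m * m) ∧
      (((θ + 1 + 1) * 2 ^ (11 * m + 15) : ℕ) : ℝ) ≤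
        θ * (2 : ℝ) ^ (50 * Real.sqrt (Real.logb 2 (θ + 1))) := by
  set L : ℝ := Real.logb 2 (θ + 2) with hL
  set L1 : ℝ := Real.logb 2 (θ + 1) with hL1
  have hθR : (1 : ℝ) ≤ θ := by exact_mod_cast hθ
  have hL1pos : 1 ≤ L1 := by
    rw [hL1, Real.le_logb_iff_rpow_le (by norm_num) (by linarith)]
    norm_num
    linarith
  have hLL1 : L ≤ 2 * L1 := by
    rw [hL, hL1]
    have : (θ : ℝ) + 2 ≤ (θ + 1) ^ 2 := by nlinarith
    calc Real.logb 2 ((θ : ℝ) + 2) ≤ Real.logb 2 (((θ : ℝ) + 1) ^ 2) := by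
          apply Real.logb_le_logb_of_le (by norm_num) (by linarith) this
      _ = 2 * Real.logb 2 ((θ : ℝ) + 1) := by
          rw [Real.logb_pow]; norm_num
  have hLpos : 0 < L := by
    rw [hL]
    apply Real.logb_pos (by norm_num)
    linarith
  set s : ℝ := Real.sqrt L with hs
  set s1 : ℝ := Real.sqrt L1 with hs1
  have hs1one : 1 ≤ s1 := by
    rw [hs1]; exact Real.one_le_sqrt.mpr hL1pos
  have hss : s ≤ 1.5 * s1 := by
    rw [hs]
    apply Real.sqrt_le_iff.mpr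
    constructor
    · positivity
    · have : s1 ^ 2 = L1 := Real.sq_sqrt (by linarith)
      nlinarith
  have hspos : 0 < s := Real.sqrt_pos.mpr hLpos
  let m : ℕ := ⌊s⌋₊ + 1
  have hm1 : (m : ℝ) ≤ s + 1 := by
    have := Nat.floor_le hspos.le
    simp only [m]
    push_cast
    linarith
  have hm2 : s < m := by
    have := Nat.lt_floor_add_one s
    simp only [m]
    push_cast
    exact this
  refine ⟨m, by simp [m], ?_, ?_⟩
  · have h1 : L < (m : ℝ) * m := by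
      have : s ^ 2 = L := Real.sq_sqrt hLpos.le
      nlinarith
    have h2 : ((θ : ℝ) + 2) < (2 : ℝ) ^ ((m : ℝ) * m) := by
      rw [hL] at h1
      have := (Real.logb_lt_iff_lt_rpow (b := 2) (by norm_num) (by linarith : (0 : ℝ) < θ + 2)).mp h1
      exact this
    have h3 : (2 : ℝ) ^ ((m : ℝ) * m) = ((2 ^ (m * m) : ℕ) : ℝ) := by
      push_cast
      rw [← Real.rpow_natCast]
      push_cast
      rfl
    rw [h3] at h2
    have h4 : θ + 2 < 2 ^ (m * m) := by exact_mod_cast h2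
    omega
  · push_cast
    have h1 : (θ : ℝ) + 1 + 1 ≤ θ * (2 : ℝ) ^ (2 : ℝ) := by
      have : (2 : ℝ) ^ (2 : ℝ) = 4 := by norm_num
      rw [this]; linarith
    have h2 : (2 : ℝ) ^ (11 * m + 15) = (2 : ℝ) ^ ((11 * m + 15 : ℝ)) := by
      rw [← Real.rpow_natCast]
      push_cast
      rfl
    have h3 : (2 : ℝ) ^ ((11 * m + 15 : ℝ)) ≤ (2 : ℝ) ^ (48 * s1) := by
      apply Real.rpow_le_rpow_of_exponent_le (by norm_num)
      nlinarith
    rw [h2]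
    calc ((θ : ℝ) + 1 + 1) * (2 : ℝ) ^ ((11 * m + 15 : ℝ))
        ≤ (θ * (2 : ℝ) ^ (2 : ℝ)) * (2 : ℝ) ^ (48 * s1) := by
          apply mul_le_mul h1 h3 (by positivity) (by positivity)
      _ = θ * (2 : ℝ) ^ (2 + 48 * s1) := by
          rw [mul_assoc, ← Real.rpow_add (by norm_num)]
      _ ≤ θ * (2 : ℝ) ^ (50 * s1) := by
          apply mul_le_mul_of_nonneg_left _ (by linarith)
          apply Real.rpow_le_rpow_of_exponent_le (by norm_num)
          nlinarith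

open Classical in
theorem main (V : Type) [Fintype V] (G : SimpleGraph V) (θ : ℕ) (hθ : 1 ≤ θ) (B : ℕ → Finset V)
    (h1 : ∀ i, (B i).card ≤ θ + 1)
    (h2 : ∀ v, ∃ i, v ∈ B i)
    (h3 : ∀ u v, G.Adj u v → ∃ i, u ∈ B i ∧ v ∈ B i)
    (h4 : ∀ v i j k, i ≤ j → j ≤ k → v ∈ B i → v ∈ B k → v ∈ B j) :
    ∃ N : ℕ, (N : ℝ) ≤ θ * (2 : ℝ) ^ (50 * Real.sqrt (Real.logb 2 (θ + 1))) ∧
      ∃ c : V → Fin N,
        ∀ (k : ℕ) (p : ℕ → V), 1 ≤ k →
          (∀ i j, i < 2 * k → j < 2 * k → p i = p j → i = j) →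
          (∀ i, i + 1 < 2 * k → G.Adj (p i) (p (i + 1))) →
          ∃ i, i < k ∧ c (p i) ≠ c (p (i + k)) := by
  obtain ⟨lo, hi, hle, hmem, hadj⟩ := intervals_of_decomp G B h2 h3 h4
  obtain ⟨m, hm1, hm2, hm3⟩ := numerics θ hθ
  have hw : ∀ p, ((Finset.univ : Finset V).filter (fun v => lo v ≤ p ∧ p ≤ hi v)).card ≤ θ + 1 := by
    intro p
    refine le_trans (Finset.card_le_card ?_) (h1 p)
    intro v hv
    rw [Finset.mem_filter] at hv
    exact hmem v p hv.2.1 hv.2.2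
  obtain ⟨c, hc⟩ := core lo hi hle (θ + 1) m hm1 hm2 hw
  refine ⟨_, hm3, c, ?_⟩
  intro k p hk hinj hp
  exact hc k p hk hinj (fun i hi => hadj _ _ (hp i hi))

end Pool.Agent.FBD
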