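import Mathlib

set_option autoImplicit false

namespace Pool.Agent.FBD

/-- The closed intervals `[a,b]` and `[c,d]` of natural numbers meet. -/
def Mt (a b c d : ℕ) : Prop := a ≤ d ∧ c ≤ b

/-! ### counting points of a grid -/

open Classical in
/-- number of elements of `S` below `x` -/
noncomputable def cnt (S : Set ℕ) (x : ℕ) : ℕ := Nat.count (fun y => y ∈ S) x

/-- the element of `S` with index `cnt S x + s` (for `x ∈ S`: the `s`-th element of `S` after `x`) -/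
noncomputable def sh (S : Set ℕ) (s x : ℕ) : ℕ := Nat.nth (fun y => y ∈ S) (cnt S x + s)

/-! ### the symbol of an index -/

/-- symbol of an index: the residue mod 8 and the odd part mod 8 of `n + 1` -/
def sy (n : ℕ) : ℕ := (n + 1) % 8 + 8 * (((n + 1) / 2 ^ (padicValNat 2 (n + 1))) % 8)

/-- bound for the contents -/
def KK (b : ℕ) : ℕ → ℕ
  | 0 => 64
  | e + 1 => 64 * (b + KK b e)

/-- A system of intervals `[lo v, hi v]` with layers `lam v`, base `b`, `r` digits, objects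
`x ∈ T e g` (type `e`, block number `g`, i.e. the block of layers `[g b^e, (g+1) b^e)`) with
regions `[x, rg e g x]`, second letters `nx e g x`, and positions `ps v`. -/
structure Sys (V : Type) where
  lo : V → ℕ
  hi : V → ℕ
  lam : V → ℕ
  b : ℕ
  r : ℕ
  T : ℕ → ℕ → Finset ℕ
  rg : ℕ → ℕ → ℕ → ℕ
  nx : ℕ → ℕ → ℕ → ℕ
  ps : V → ℕ
  hle : ∀ v, lo v ≤ hi v
  hb : 2 ≤ b
  hr : 1 ≤ r
  hlam : ∀ v, lam v < b ^ r
  rg_le : ∀ e g x, e < r → x ∈ T e g → x ≤ rg e g x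
  sepT : ∀ e g, e < r → ∀ x ∈ T e g, ∀ x' ∈ T e g, ∀ v v', (g + 1) * b ^ e ≤ lam v →
      (g + 1) * b ^ e ≤ lam v' → Mt (lo v) (hi v) (lo v') (hi v') →
      Mt (lo v) (hi v) x (rg e g x) → Mt (lo v') (hi v') x' (rg e g x') → x = x'
  ordT : ∀ e g, e < r → ∀ x ∈ T e g, ∀ x' ∈ T e g, x < x' → rg e g x < x'
  ch1 : ∀ e g, e + 1 < r → ∀ x ∈ T e g, x ∈ T (e + 1) (g / b)
  ch2 : ∀ e g, e + 1 < r → ∀ x ∈ T e g, nx e g x ∈ T (e + 1) (g / b)
  ch3 : ∀ e g, e + 1 < r → ∀ x ∈ T e g, x < nx e g x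
  ch4 : ∀ e g, e + 1 < r → ∀ x ∈ T e g, rg (e + 1) (g / b) (nx e g x) ≤ rg e g x
  ch5 : ∀ e g, e + 1 < r → ∀ x ∈ T e g, ∀ y ∈ T (e + 1) (g / b), x < y → nx e g x ≤ y
  par : ∀ e G, e + 1 < r → ∀ y ∈ T (e + 1) G,
      ∃ g x, g / b = G ∧ x ∈ T e g ∧ (y = x ∨ y = nx e g x)
  un1 : ∀ e g g', e + 1 < r → g / b = g' / b → ∀ x ∈ T e g, ∀ x' ∈ T e g', nx e g x ≠ x'
  un2 : ∀ e g g', e + 1 < r → g / b = g' / b → ∀ x, x ∈ T e g → x ∈ T e g' → g = g'
  un3 : ∀ e g g', e + 1 < r → g / b = g' / b → ∀ x ∈ T e g, ∀ x' ∈ T e g',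
      nx e g x = nx e g' x' → x = x'
  sepO : ∀ j e g x e' g' x', (e < r ∧ g < j / b ^ e ∧ g / b = j / b ^ (e + 1)) →
      (e' < r ∧ g' < j / b ^ e' ∧ g' / b = j / b ^ (e' + 1)) → x ∈ T e g → x' ∈ T e' g' →
      ∀ v v', j ≤ lam v → j ≤ lam v' → Mt (lo v) (hi v) (lo v') (hi v') →
      Mt (lo v) (hi v) x (rg e g x) → Mt (lo v') (hi v') x' (rg e' g' x') →
      e = e' ∧ g = g' ∧ x = x'
  cov : ∀ v v', lam v = lam v' → ps v = ps v' → v ≠ v' →
      (∃ e g z e' g' z',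
        (e < r ∧ g < lam v / b ^ e ∧ g / b = lam v / b ^ (e + 1)) ∧ z ∈ T e g ∧
        (e' < r ∧ g' < lam v / b ^ e' ∧ g' / b = lam v / b ^ (e' + 1)) ∧ z' ∈ T e' g' ∧
        ((hi v < z ∧ rg e g z < z' ∧ rg e' g' z' < lo v') ∨
         (hi v' < z ∧ rg e g z < z' ∧ rg e' g' z' < lo v)))

namespace Sys

variable {V : Type} (S : Sys V)

/-- blocks whose objects are directly revealed by the vertices of layer `j` -/
def Ob (j e g : ℕ) : Prop := e < S.r ∧ g < j / S.b ^ e ∧ g / S.b = j / S.b ^ (e + 1)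

/-- the vertex `v` touches the region of the object `x ∈ T e g` -/
def tch (v : V) (e g x : ℕ) : Prop := Mt (S.lo v) (S.hi v) x (S.rg e g x)

/-- two vertices (intervals) meet -/
def mt (v v' : V) : Prop := Mt (S.lo v) (S.hi v) (S.lo v') (S.hi v')

open Classical in
/-- index of the object `x` in the line `T e g` -/
noncomputable def idx (e g x : ℕ) : ℕ := ((S.T e g).filter (fun y => y < x)).card

open Classical in
/-- position code of a vertex relative to the line `T e g`: twice the number of regions to its left,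
plus one if it touches a region -/
noncomputable def kap (e g : ℕ) (v : V) : ℕ :=
  2 * ((S.T e g).filter (fun y => S.rg e g y < S.lo v)).card +
    (if ∃ x ∈ S.T e g, S.tch v e g x then 1 else 0)

open Classical in
/-- content of an object -/
noncomputable def cont : ℕ → ℕ → ℕ → ℕ
  | 0, g, x => sy (S.idx 0 g x)
  | e + 1, G, y => sy (S.idx (e + 1) G y) + 64 *
      (if h : ∃ g, g / S.b = G ∧ y ∈ S.T e g then Classical.choose h % S.b
       else if h : ∃ q : ℕ × ℕ, q.1 / S.b = G ∧ q.2 ∈ S.T e q.1 ∧ y = S.nx e q.1 q.2 then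
        S.b + cont e (Classical.choose h).1 (Classical.choose h).2
       else 0)

open Classical in
/-- what a vertex reveals directly -/
noncomputable def dir (v : V) : Option (ℕ × ℕ × ℕ) :=
  if h : ∃ q : ℕ × ℕ × ℕ, S.Ob (S.lam v) q.1 q.2.1 ∧ q.2.2 ∈ S.T q.1 q.2.1 ∧
      S.tch v q.1 q.2.1 q.2.2 then
    some ((Classical.choose h).1, (Classical.choose h).2.1 % S.b,
      S.cont (Classical.choose h).1 (Classical.choose h).2.1 (Classical.choose h).2.2)
  else none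

/-- the colouring -/
noncomputable def col (v : V) : ℕ × ℕ × Option (ℕ × ℕ × ℕ) := (S.lam v, S.ps v, S.dir v)

end Sys

/-! ### the concrete objects -/

/-- shift amounts -/
def ss (r e : ℕ) : ℕ := 6 * 2 ^ (r - 2 - e)

/-- region bounds -/
def RR (r e : ℕ) : ℕ := 6 * (2 ^ (r - 1 - e) - 1)

/-- separation of the marks -/
def DL (r : ℕ) : ℕ := RR r 0 + 10

/-- second letter of an object `x` of type `e` in the block with number `g` -/
noncomputable def nxt (B : ℕ → Set ℕ) (b r e g x : ℕ) : ℕ :=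
  sh (B ((g / b + 1) * b ^ (e + 1))) (ss r e) x

/-- right end of the region, by recursion on the remaining number `n` of types -/
noncomputable def rgF (B : ℕ → Set ℕ) (b r : ℕ) : ℕ → ℕ → ℕ → ℕ → ℕ
  | 0, _, _, x => x
  | n + 1, e, g, x => rgF B b r n (e + 1) (g / b) (nxt B b r e g x)

/-- right end of the region of an object `x` of type `e` in the block `g` -/
noncomputable def rgn (B : ℕ → Set ℕ) (b r e g x : ℕ) : ℕ := rgF B b r (r - 1 - e) e g x

open Classical in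
/-- the locations of the objects of type `e` of the mark at `q` with name `β` -/
noncomputable def DS (B : ℕ → Set ℕ) (b r : ℕ) : ℕ → ℕ → ℕ → Finset ℕ
  | 0, _, q => {q}
  | e + 1, β, q => DS B b r e β q ∪ (DS B b r e β q).image (nxt B b r e (β / b ^ e))

open Classical in
/-- all objects of type `e` in the block `g` -/
noncomputable def TT (B : ℕ → Set ℕ) (b r : ℕ) (Nm : ℕ → Finset ℕ) (e g : ℕ) : Finset ℕ :=
  (Finset.Ico (g * b ^ e) ((g + 1) * b ^ e)).biUnion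
    (fun β => (Nm β).biUnion (fun q => DS B b r e β q))

/-- properties of a family of marks -/
structure Marks (B : ℕ → Set ℕ) (b r M : ℕ) (Nm : ℕ → Finset ℕ) : Prop where
  m1 : ∀ β, ∀ q ∈ Nm β, ∀ q' ∈ Nm β, q < q' → cnt (B (β + 1)) q + DL r ≤ cnt (B (β + 1)) q'
  m2 : ∀ β₀ β, β₀ < β → ∀ q₀ ∈ Nm β₀, ∀ y ∈ DS B b r (r - 1) β₀ q₀, ∀ q ∈ Nm β,
    cnt (B (β + 1)) q + DL r ≤ cnt (B (β + 1)) y ∨ cnt (B (β + 1)) y + DL r ≤ cnt (B (β + 1)) q
  m3 : ∀ β, ∀ x ∈ B (β + 1), x < M → ∃ β₀, β₀ ≤ β ∧ ∃ q₀ ∈ Nm β₀,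
    ∃ y ∈ DS B b r (r - 1) β₀ q₀, cnt (B (β + 1)) x < cnt (B (β + 1)) y + DL r ∧
      cnt (B (β + 1)) y < cnt (B (β + 1)) x + DL r

/-- properties of the grids -/
structure Grids {V : Type} (lo hi lam : V → ℕ) (B : ℕ → Set ℕ) (M : ℕ) : Prop where
  mono : ∀ i j, i ≤ j → B i ⊆ B j
  pad : ∀ j x, M ≤ x → x ∈ B j
  hiM : ∀ v, hi v < M
  hit : ∀ v j, lam v ≤ j → cnt (B j) (lo v) < cnt (B j) (hi v + 1)
  two : ∀ v j, j ≤ lam v → cnt (B j) (hi v + 1) ≤ cnt (B j) (lo v) + 2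

end Pool.Agent.FBD
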