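import Pool.Agent.Lib.MP_fbd18f_co.Defs

set_option autoImplicit false

/-! Layers of a family of intervals: minimal covers by inclusion-maximal intervals. -/

namespace Pool.Agent.FBD

/-- among three intervals with a common point one lies in the union of the other two -/
private theorem three_red {V : Type} (lo hi : V → ℕ) (a b c : V) (p : ℕ)
    (ha : lo a ≤ p ∧ p ≤ hi a) (hb : lo b ≤ p ∧ p ≤ hi b) (hc : lo c ≤ p ∧ p ≤ hi c) :
    (∀ q, lo a ≤ q ∧ q ≤ hi a → (lo b ≤ q ∧ q ≤ hi b) ∨ (lo c ≤ q ∧ q ≤ hi c)) ∨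
    (∀ q, lo b ≤ q ∧ q ≤ hi b → (lo a ≤ q ∧ q ≤ hi a) ∨ (lo c ≤ q ∧ q ≤ hi c)) ∨
    (∀ q, lo c ≤ q ∧ q ≤ hi c → (lo a ≤ q ∧ q ≤ hi a) ∨ (lo b ≤ q ∧ q ≤ hi b)) := by
  have key : ((lo b ≤ lo a ∨ lo c ≤ lo a) ∧ (hi a ≤ hi b ∨ hi a ≤ hi c)) ∨
      ((lo a ≤ lo b ∨ lo c ≤ lo b) ∧ (hi b ≤ hi a ∨ hi b ≤ hi c)) ∨
      ((lo a ≤ lo c ∨ lo b ≤ lo c) ∧ (hi c ≤ hi a ∨ hi c ≤ hi b)) := by omega
  rcases key with h | h | h
  · exact Or.inl fun q hq => by omega
  · exact Or.inr (Or.inl fun q hq => by omega)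
  · exact Or.inr (Or.inr fun q hq => by omega)

open Classical in
/-- a minimal cover by inclusion-maximal intervals -/
private theorem cover {V : Type} (lo hi : V → ℕ) (S : Finset V) :
    ∃ L : Finset V, L ⊆ S ∧
      (∀ u ∈ L, ∀ x ∈ S, lo x ≤ lo u → hi u ≤ hi x → ¬ (lo x < lo u ∨ hi u < hi x)) ∧
      (∀ p, (∃ u ∈ S, lo u ≤ p ∧ p ≤ hi u) → ∃ v ∈ L, lo v ≤ p ∧ p ≤ hi v) ∧
      (∀ p, (L.filter (fun v => lo v ≤ p ∧ p ≤ hi v)).card ≤ 2) := by
  set C : Finset V := S.filter (fun u => ∀ x ∈ S, lo x ≤ lo u → hi u ≤ hi x →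
    ¬ (lo x < lo u ∨ hi u < hi x)) with hC
  have hCcov : ∀ p, (∃ u ∈ S, lo u ≤ p ∧ p ≤ hi u) → ∃ v ∈ C, lo v ≤ p ∧ p ≤ hi v := by
    rintro p ⟨u, hu, h1, h2⟩
    obtain ⟨v, hv, hmax⟩ := Finset.exists_max_image
      (S.filter (fun x => lo x ≤ lo u ∧ hi u ≤ hi x)) (fun x => hi x - lo x)
      ⟨u, by simp [hu]⟩
    simp only [Finset.mem_filter] at hv hmax
    refine ⟨v, ?_, by omega, by omega⟩
    rw [hC, Finset.mem_filter]
    refine ⟨hv.1, fun x hx h3 h4 h5 => ?_⟩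
    have := hmax x ⟨hx, by omega, by omega⟩
    omega
  obtain ⟨L, hL, hmin⟩ := Finset.exists_min_image
    (C.powerset.filter (fun L => ∀ p, (∃ u ∈ S, lo u ≤ p ∧ p ≤ hi u) →
      ∃ v ∈ L, lo v ≤ p ∧ p ≤ hi v)) Finset.card
    ⟨C, by
      rw [Finset.mem_filter]
      exact ⟨Finset.mem_powerset_self C, hCcov⟩⟩
  rw [Finset.mem_filter, Finset.mem_powerset] at hL
  have hLS : L ⊆ S := hL.1.trans (Finset.filter_subset _ _)
  refine ⟨L, hLS, fun u hu => (Finset.mem_filter.mp (hL.1 hu)).2, hL.2, ?_⟩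
  -- no element of L is redundant
  have hred : ∀ a ∈ L, ∀ b ∈ L, ∀ c ∈ L, a ≠ b → a ≠ c →
      ¬ (∀ q, lo a ≤ q ∧ q ≤ hi a → (lo b ≤ q ∧ q ≤ hi b) ∨ (lo c ≤ q ∧ q ≤ hi c)) := by
    intro a ha b hb c hc hab hac hq
    have hmem : L.erase a ∈ C.powerset.filter (fun L => ∀ p,
        (∃ u ∈ S, lo u ≤ p ∧ p ≤ hi u) → ∃ v ∈ L, lo v ≤ p ∧ p ≤ hi v) := by
      rw [Finset.mem_filter, Finset.mem_powerset]
      refine ⟨(Finset.erase_subset _ _).trans hL.1, fun p hp => ?_⟩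
      obtain ⟨v, hv, h1⟩ := hL.2 p hp
      by_cases hva : v = a
      · subst hva
        rcases hq p h1 with h | h
        · exact ⟨b, Finset.mem_erase.mpr ⟨Ne.symm hab, hb⟩, h⟩
        · exact ⟨c, Finset.mem_erase.mpr ⟨Ne.symm hac, hc⟩, h⟩
      · exact ⟨v, Finset.mem_erase.mpr ⟨hva, hv⟩, h1⟩
    have h1 := hmin _ hmem
    have h2 := Finset.card_erase_lt_of_mem ha
    omega
  intro p
  by_contra hcon
  obtain ⟨a, b, c, ha, hb, hc, hab, hac, hbc⟩ :=
    Finset.two_lt_card_iff.mp (not_le.mp hcon)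
  rw [Finset.mem_filter] at ha hb hc
  rcases three_red lo hi a b c p ha.2 hb.2 hc.2 with h | h | h
  · exact hred a ha.1 b hb.1 c hc.1 hab hac h
  · exact hred b hb.1 a ha.1 c hc.1 (Ne.symm hab) hbc h
  · exact hred c hc.1 a ha.1 b hb.1 (Ne.symm hac) (Ne.symm hbc) h

open Classical in
private theorem layers_aux {V : Type} (lo hi : V → ℕ) (hle : ∀ v, lo v ≤ hi v) (w : ℕ) :
    ∀ S : Finset V, (∀ p, (S.filter (fun v => lo v ≤ p ∧ p ≤ hi v)).card ≤ w) →
    ∃ lam : V → ℕ, (∀ v ∈ S, 1 ≤ lam v ∧ lam v ≤ w) ∧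
      (∀ x ∈ S, ∀ u ∈ S, lo x ≤ lo u → hi u ≤ hi x → (lo x < lo u ∨ hi u < hi x) →
        lam x < lam u) ∧
      (∀ j p, (S.filter (fun v => lam v = j ∧ lo v ≤ p ∧ p ≤ hi v)).card ≤ 2) := by
  induction w with
  | zero =>
    intro S hS
    have hS0 : ∀ v, v ∉ S := by
      intro v hv
      have h1 := hS (lo v)
      have h2 : v ∈ S.filter (fun x => lo x ≤ lo v ∧ lo v ≤ hi x) := by
        rw [Finset.mem_filter]
        exact ⟨hv, le_rfl, hle v⟩
      have h3 := Finset.card_pos.mpr ⟨v, h2⟩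
      omega
    have hS1 : S = ∅ := Finset.eq_empty_of_forall_notMem hS0
    subst hS1
    exact ⟨fun _ => 1, by simp, by simp, by simp⟩
  | succ w ih =>
    intro S hS
    obtain ⟨L, hLS, hLmax, hLcov, hL2⟩ := cover lo hi S
    have hdrop : ∀ p, ((S \ L).filter (fun v => lo v ≤ p ∧ p ≤ hi v)).card ≤ w := by
      intro p
      by_cases hp : ∃ u ∈ S, lo u ≤ p ∧ p ≤ hi u
      · obtain ⟨v, hv, hvp⟩ := hLcov p hp
        have h1 : ((S \ L).filter (fun v => lo v ≤ p ∧ p ≤ hi v)) ⊂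
            S.filter (fun v => lo v ≤ p ∧ p ≤ hi v) := by
          rw [Finset.ssubset_iff_of_subset
            (Finset.filter_subset_filter _ Finset.sdiff_subset)]
          refine ⟨v, Finset.mem_filter.mpr ⟨hLS hv, hvp⟩, fun h => ?_⟩
          exact (Finset.mem_sdiff.mp (Finset.mem_filter.mp h).1).2 hv
        have h2 := Finset.card_lt_card h1
        have h3 := hS p
        omega
      · have : ((S \ L).filter (fun v => lo v ≤ p ∧ p ≤ hi v)) = ∅ := by
          apply Finset.eq_empty_of_forall_notMem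
          intro v hv
          rw [Finset.mem_filter, Finset.mem_sdiff] at hv
          exact hp ⟨v, hv.1.1, hv.2⟩
        rw [this]
        simp
    obtain ⟨lam, h1, h2, h3⟩ := ih (S \ L) hdrop
    refine ⟨fun v => if v ∈ L then 1 else lam v + 1, ?_, ?_, ?_⟩
    · intro v hv
      by_cases hvL : v ∈ L
      · simp [hvL]
      · have := h1 v (Finset.mem_sdiff.mpr ⟨hv, hvL⟩)
        simp only [hvL, if_false]
        omega
    · intro x hx u hu hlo hhi hne
      have huL : u ∉ L := fun h => hLmax u h x hx hlo hhi hne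
      have hu' := h1 u (Finset.mem_sdiff.mpr ⟨hu, huL⟩)
      by_cases hxL : x ∈ L
      · simp only [hxL, huL, if_true, if_false]
        omega
      · simp only [hxL, huL, if_false]
        have := h2 x (Finset.mem_sdiff.mpr ⟨hx, hxL⟩) u (Finset.mem_sdiff.mpr ⟨hu, huL⟩)
          hlo hhi hne
        omega
    · intro j p
      by_cases hj : j = 1
      · refine le_trans (Finset.card_le_card ?_) (hL2 p)
        intro v hv
        rw [Finset.mem_filter] at hv ⊢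
        refine ⟨?_, hv.2.2⟩
        by_contra hvL
        have := h1 v (Finset.mem_sdiff.mpr ⟨hv.1, hvL⟩)
        have h4 := hv.2.1
        simp only [hvL, if_false] at h4
        omega
      · refine le_trans (Finset.card_le_card ?_) (h3 (j - 1) p)
        intro v hv
        rw [Finset.mem_filter] at hv ⊢
        have h4 := hv.2.1
        by_cases hvL : v ∈ L
        · simp only [hvL, if_true] at h4
          omega
        · simp only [hvL, if_false] at h4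
          exact ⟨Finset.mem_sdiff.mpr ⟨hv.1, hvL⟩, by omega, hv.2.2⟩

open Classical in
theorem layers {V : Type} [Fintype V] (lo hi : V → ℕ) (hle : ∀ v, lo v ≤ hi v) (w : ℕ)
    (hw : ∀ p, ((Finset.univ : Finset V).filter (fun v => lo v ≤ p ∧ p ≤ hi v)).card ≤ w) :
    ∃ lam : V → ℕ, (∀ v, 1 ≤ lam v ∧ lam v ≤ w) ∧
      (∀ x u, lo x ≤ lo u → hi u ≤ hi x → (lo x < lo u ∨ hi u < hi x) → lam x < lam u) ∧
      (∀ j p, ((Finset.univ : Finset V).filter
        (fun v => lam v = j ∧ lo v ≤ p ∧ p ≤ hi v)).card ≤ 2) := by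
  obtain ⟨lam, h1, h2, h3⟩ := layers_aux lo hi hle w Finset.univ hw
  exact ⟨lam, fun v => h1 v (Finset.mem_univ v),
    fun x u => h2 x (Finset.mem_univ x) u (Finset.mem_univ u), h3⟩

end Pool.Agent.FBD
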